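import Pool.Agent.HB.O.Outer
import Pool.Agent.HB.T.Dot

/-!
# HB.O.IN: the interpolation norm

PROOFS.  The defining set is nonempty: constant polynomial `x` (`F = x.mapRange C`), `W t x` is continuous in `t` on a compact
space, hence bounded.
`coord_le_IN`: `‖x i‖ = ‖(F i).eval 0‖ ≤ sup_t ‖(F i).eval (zz t)‖ ≤ sup W` (`max_poly`, `coord`).
`IN_smul`: multiply `F` by the constant `a` (for `a = 0` use `F = 0`).
`IN_res`: `ev_res`, `Fam.res`.  `IN_exists_supp`: replace `F` by `res E F`.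
`bal`: let `g t = W t (ev (zz t) F)` (continuous), `A^k = ∫ g^k` (`A = (∫ g^k)^{1/k}`); by `outer_mean` there is `φ` with `φ(0) = 1`,
`‖φ‖ g ≤ A + ε`; `φ • F` has value `x` at `0` and `W t (ev (zz t) (φ • F)) = ‖φ(zz t)‖ W t (ev (zz t) F) ≤ A + ε`.
-/

open Finset MeasureTheory Polynomial

namespace Pool.Agent.HB

variable {W : TC → CV → ℝ}

/-- the set which defines `IN` is nonempty -/
theorem IN_ne (hW : Fam W) (x : CV) :
    {A | 0 ≤ A ∧ ∃ F : Pol, ev 0 F = x ∧ ∀ t, W t (ev (zz t) F) ≤ A}.Nonempty := by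
  have hc : Continuous fun t => W t x := hW.cont _ (cur_const x)
  obtain ⟨A, hA⟩ := (isCompact_univ (X := TC)).bddAbove_image hc.continuousOn
  have hA' : ∀ t, W t x ≤ A := fun t => hA ⟨t, Set.mem_univ t, rfl⟩
  have hev : ∀ τ : ℂ, ev τ (x.mapRange (fun a => (C a : ℂ[X])) (by simp)) = x := by
    intro τ
    ext i
    simp [ev]
  refine ⟨max A 0, le_max_right _ _, x.mapRange (fun a => (C a : ℂ[X])) (by simp), hev 0, ?_⟩
  intro t
  rw [hev]
  exact (hA' t).trans (le_max_left _ _)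

theorem IN_nonneg (hW : Fam W) (x : CV) : 0 ≤ IN W x := by
  exact Real.sInf_nonneg fun A hA => hA.1

theorem IN_le (F : Pol) {A : ℝ} (hA : 0 ≤ A)
    (h : ∀ t, W t (ev (zz t) F) ≤ A) : IN W (ev 0 F) ≤ A := by
  exact csInf_le ⟨0, fun B hB => hB.1⟩ ⟨hA, F, rfl, h⟩

theorem IN_exists (hW : Fam W) {x : CV} {A : ℝ} (h : IN W x < A) :
    ∃ F : Pol, ev 0 F = x ∧ ∀ t, W t (ev (zz t) F) ≤ A := by
  obtain ⟨B, ⟨_, F, h1, h2⟩, hB⟩ := exists_lt_of_csInf_lt (IN_ne hW x) h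
  exact ⟨F, h1, fun t => (h2 t).trans hB.le⟩

theorem IN_exists_supp (hW : Fam W) {x : CV} {A : ℝ} (h : IN W x < A) (E : Set ℕ)
    (hE : E.OrdConnected) (hx : res E x = x) :
    ∃ F : Pol, ev 0 F = x ∧ res E F = F ∧ ∀ t, W t (ev (zz t) F) ≤ A := by
  obtain ⟨F, h1, h2⟩ := IN_exists hW h
  refine ⟨res E F, ?_, ?_, fun t => ?_⟩
  · rw [ev_res, h1, hx]
  · rw [res_res, Set.inter_self]
  · rw [ev_res]
    exact (hW.res t _ E hE).trans (h2 t)

theorem IN_smul_le (hW : Fam W) (a : ℂ) (x : CV) : IN W (a • x) ≤ ‖a‖ * IN W x := by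
  refine le_of_forall_pos_le_add fun ε hε => ?_
  have hn : 0 < ‖a‖ + 1 := by positivity
  obtain ⟨F, h1, h2⟩ := IN_exists hW (x := x) (A := IN W x + ε / (‖a‖ + 1))
    (by linarith [div_pos hε hn])
  have hx0 := IN_nonneg hW x
  have hev : ∀ τ : ℂ, ev τ ((C a : ℂ[X]) • F) = a • ev τ F := by
    intro τ
    rw [ev_smul, eval_C]
  have h3 := IN_le (W := W) ((C a : ℂ[X]) • F) (A := ‖a‖ * (IN W x + ε / (‖a‖ + 1)))
    (by positivity) (fun t => by
      rw [hev, hW.smul]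
      exact mul_le_mul_of_nonneg_left (h2 t) (norm_nonneg _))
  rw [hev, h1] at h3
  refine h3.trans ?_
  rw [mul_add]
  have : ‖a‖ * (ε / (‖a‖ + 1)) ≤ ε := by
    rw [mul_div_assoc', div_le_iff₀ hn]
    nlinarith [norm_nonneg a]
  linarith

theorem IN_smul (hW : Fam W) (a : ℂ) (x : CV) : IN W (a • x) = ‖a‖ * IN W x := by
  refine le_antisymm (IN_smul_le hW a x) ?_
  by_cases ha : a = 0
  · rw [ha, norm_zero, zero_mul]
    exact IN_nonneg hW _
  · have h1 := IN_smul_le hW a⁻¹ (a • x)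
    rw [smul_smul, inv_mul_cancel₀ ha, one_smul, norm_inv] at h1
    have hn : 0 < ‖a‖ := norm_pos_iff.2 ha
    calc ‖a‖ * IN W x ≤ ‖a‖ * (‖a‖⁻¹ * IN W (a • x)) := mul_le_mul_of_nonneg_left h1 hn.le
      _ = IN W (a • x) := by rw [← mul_assoc, mul_inv_cancel₀ hn.ne', one_mul]

theorem IN_rsmul (hW : Fam W) (a : ℝ) (x : CV) : IN W (a • x) = |a| * IN W x := by
  have h : (a • x : CV) = (a : ℂ) • x := by
    ext i
    simp
  rw [h, IN_smul hW, Complex.norm_real, Real.norm_eq_abs]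

theorem IN_add (hW : Fam W) (x y : CV) : IN W (x + y) ≤ IN W x + IN W y := by
  refine le_of_forall_pos_le_add fun ε hε => ?_
  obtain ⟨F, h1, h2⟩ := IN_exists hW (x := x) (A := IN W x + ε / 2) (by linarith)
  obtain ⟨G, h3, h4⟩ := IN_exists hW (x := y) (A := IN W y + ε / 2) (by linarith)
  have hx0 := IN_nonneg hW x
  have hy0 := IN_nonneg hW y
  have h5 := IN_le (W := W) (F + G) (A := (IN W x + ε / 2) + (IN W y + ε / 2)) (by positivity)
    (fun t => by
      rw [ev_add]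
      exact (hW.add t _ _).trans (add_le_add (h2 t) (h4 t)))
  rw [ev_add, h1, h3] at h5
  linarith

theorem IN_res (hW : Fam W) (E : Set ℕ) (hE : E.OrdConnected) (x : CV) :
    IN W (res E x) ≤ IN W x := by
  refine le_of_forall_pos_le_add fun ε hε => ?_
  obtain ⟨F, h1, h2⟩ := IN_exists hW (x := x) (A := IN W x + ε) (by linarith)
  have hx0 := IN_nonneg hW x
  have h5 := IN_le (W := W) (res E F) (A := IN W x + ε) (by positivity)
    (fun t => by
      rw [ev_res]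
      exact (hW.res t _ E hE).trans (h2 t))
  rw [ev_res, h1] at h5
  exact h5

theorem coord_le_IN (hW : Fam W) (x : CV) (i : ℕ) : ‖x i‖ ≤ IN W x := by
  refine le_of_forall_pos_le_add fun ε hε => ?_
  obtain ⟨F, h1, h2⟩ := IN_exists hW (x := x) (A := IN W x + ε) (by linarith)
  have h3 := max_poly (F i) (A := IN W x + ε) (fun t => by
    rw [← ev_apply]
    exact (hW.coord t _ i).trans (h2 t))
  rw [← ev_apply, h1] at h3
  exact h3

theorem IN_pos (hW : Fam W) {x : CV} (h : x ≠ 0) : 0 < IN W x := by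
  obtain ⟨i, hi⟩ : ∃ i, x i ≠ 0 := by
    by_contra hc
    push Not at hc
    exact h (Finsupp.ext hc)
  exact (norm_pos_iff.2 hi).trans_le (coord_le_IN hW x i)

theorem IN_mono {W' : TC → CV → ℝ} (hW : Fam W) (hW' : Fam W') (h : ∀ t x, W' t x ≤ W t x)
    (x : CV) : IN W' x ≤ IN W x := by
  refine le_of_forall_pos_le_add fun ε hε => ?_
  obtain ⟨F, h1, h2⟩ := IN_exists hW (x := x) (A := IN W x + ε) (by linarith)
  have hx0 := IN_nonneg hW x
  have h5 := IN_le (W := W') F (A := IN W x + ε) (by positivity)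
    (fun t => (h t _).trans (h2 t))
  rw [h1] at h5
  exact h5

theorem bal (hW : Fam W) (F : Pol) (k : ℕ) (hk : 1 ≤ k) :
    IN W (ev 0 F) ^ k ≤ ∫ t, W t (ev (zz t) F) ^ k ∂haar := by
  have hg : Continuous fun t => W t (ev (zz t) F) := hW.cont _ (cur_ev F)
  have hg0 : ∀ t, 0 ≤ W t (ev (zz t) F) := fun t => hW.nn t _
  set J : ℝ := ∫ t, W t (ev (zz t) F) ^ k ∂haar with hJ
  have hJ0 : 0 ≤ J := integral_nonneg fun t => pow_nonneg (hg0 t) k
  set A : ℝ := J ^ ((k : ℝ)⁻¹) with hA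
  have hA0 : 0 ≤ A := Real.rpow_nonneg hJ0 _
  have hAk : A ^ k = J := Real.rpow_inv_natCast_pow hJ0 (by omega)
  have hle : IN W (ev 0 F) ≤ A := by
    refine le_of_forall_pos_le_add fun ε hε => ?_
    obtain ⟨φ, hφ0, hφ⟩ := outer_mean _ hg hg0 k hk hA0 hAk.ge hε
    have h5 := IN_le (W := W) (φ • F) (A := A + ε) (by positivity)
      (fun t => by
        rw [ev_smul, hW.smul]
        exact hφ t)
    rw [ev_smul, hφ0, one_smul] at h5
    exact h5
  calc IN W (ev 0 F) ^ k ≤ A ^ k := pow_le_pow_left₀ (IN_nonneg hW _) hle k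
    _ = J := hAk

/-- upper 3-estimate -/
theorem IN_u3 (hW : Fam W) (C : ℝ) (n : ℕ)
    (hC : ∀ (t : TC) (x : ℕ → CV), (∀ k < n, ∀ l < n, k < l → Lt (x k) (x l)) →
      W t (∑ k ∈ range n, x k) ^ 3 ≤ C * ∑ k ∈ range n, W t (x k) ^ 3)
    (hC0 : 0 ≤ C) (x : ℕ → CV) (hx : ∀ k < n, ∀ l < n, k < l → Lt (x k) (x l)) (A : ℝ)
    (hA : ∀ k < n, IN W (x k) ≤ A) :
    IN W (∑ k ∈ range n, x k) ^ 3 ≤ C * n * A ^ 3 := by
  rcases Nat.eq_zero_or_pos n with rfl | hn
  · have h0 := IN_smul hW 0 0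
    rw [norm_zero, zero_mul, smul_zero] at h0
    simp [h0]
  have hA0 : 0 ≤ A := (IN_nonneg hW _).trans (hA 0 hn)
  have hn0 : (0 : ℝ) ≤ n := Nat.cast_nonneg n
  -- the bound for every `ε`
  have key : ∀ ε : ℝ, 0 < ε → IN W (∑ k ∈ range n, x k) ^ 3 ≤ C * n * (A + ε) ^ 3 := by
    intro ε hε
    set E : ℕ → Set ℕ := fun k => {i | ∃ a ∈ (x k).support, ∃ b ∈ (x k).support, a ≤ i ∧ i ≤ b}
      with hE
    have hEc : ∀ k, (E k).OrdConnected := by
      intro k
      refine ⟨fun i hi j hj m hm => ?_⟩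
      obtain ⟨a, ha, _, _, h1, _⟩ := hi
      obtain ⟨_, _, b, hb, _, h2⟩ := hj
      exact ⟨a, ha, b, hb, h1.trans hm.1, hm.2.trans h2⟩
    have hEx : ∀ k, res (E k) (x k) = x k := fun k =>
      res_eq_self _ _ fun i hi => ⟨i, hi, i, hi, le_rfl, le_rfl⟩
    have hF : ∀ k, ∃ F : Pol, k < n → ev 0 F = x k ∧ res (E k) F = F ∧
        ∀ t, W t (ev (zz t) F) ≤ A + ε := by
      intro k
      by_cases hk : k < n
      · obtain ⟨F, h1⟩ := IN_exists_supp hW (x := x k) (A := A + ε)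
          (by linarith [hA k hk]) (E k) (hEc k) (hEx k)
        exact ⟨F, fun _ => h1⟩
      · exact ⟨0, fun h => absurd h hk⟩
    choose F hF using hF
    have hsum : ev 0 (∑ k ∈ range n, F k) = ∑ k ∈ range n, x k := by
      rw [ev_sum]
      exact Finset.sum_congr rfl fun k hk => (hF k (mem_range.1 hk)).1
    have hsupp : ∀ k < n, ∀ t, ∀ i ∈ (ev (zz t) (F k)).support, i ∈ E k := by
      intro k hk t i hi
      have h1 := ev_support _ _ hi
      rw [← (hF k hk).2.1] at h1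
      exact ((res_support _ _).1 h1).1
    have hB0 : 0 ≤ C * n * (A + ε) ^ 3 := by positivity
    set B : ℝ := (C * n * (A + ε) ^ 3) ^ (((3 : ℕ) : ℝ)⁻¹) with hB
    have hB1 : 0 ≤ B := Real.rpow_nonneg hB0 _
    have hB3 : B ^ 3 = C * n * (A + ε) ^ 3 := Real.rpow_inv_natCast_pow hB0 (by norm_num)
    have h5 := IN_le (W := W) (∑ k ∈ range n, F k) (A := B) hB1 (fun t => by
      have h6 := hC t (fun k => ev (zz t) (F k)) (by
        intro k hk l hl hkl i hi j hj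
        obtain ⟨_, _, b, hb, _, h2⟩ := hsupp k hk t i hi
        obtain ⟨a, ha, _, _, h1, _⟩ := hsupp l hl t j hj
        exact lt_of_le_of_lt h2 (lt_of_lt_of_le (hx k hk l hl hkl b hb a ha) h1))
      have h7 : ∑ k ∈ range n, W t (ev (zz t) (F k)) ^ 3 ≤ ∑ _k ∈ range n, (A + ε) ^ 3 :=
        Finset.sum_le_sum fun k hk =>
          pow_le_pow_left₀ (hW.nn t _) ((hF k (mem_range.1 hk)).2.2 t) 3
      rw [Finset.sum_const, card_range, nsmul_eq_mul] at h7
      have h8 : W t (ev (zz t) (∑ k ∈ range n, F k)) ^ 3 ≤ B ^ 3 := by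
        rw [hB3, ev_sum]
        refine h6.trans ?_
        rw [mul_assoc]
        exact mul_le_mul_of_nonneg_left h7 hC0
      exact le_of_pow_le_pow_left₀ (by norm_num) hB1 h8)
    rw [hsum] at h5
    calc IN W (∑ k ∈ range n, x k) ^ 3 ≤ B ^ 3 := pow_le_pow_left₀ (IN_nonneg hW _) h5 3
      _ = _ := hB3
  -- the limit
  have hlim : Filter.Tendsto (fun ε : ℝ => C * n * (A + ε) ^ 3) (nhdsWithin 0 (Set.Ioi 0))
      (nhds (C * n * A ^ 3)) := by
    have hc : Continuous fun ε : ℝ => C * n * (A + ε) ^ 3 := by fun_prop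
    have := hc.tendsto 0
    rw [add_zero] at this
    exact this.mono_left nhdsWithin_le_nhds
  refine ge_of_tendsto hlim ?_
  filter_upwards [self_mem_nhdsWithin] with ε hε
  exact key ε hε

end Pool.Agent.HB
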