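import Pool.Agent.HB.O.Circle
import Pool.Agent.HB.T.Dot

/-!
# HB.O.Dense: a dense enumeration of the polynomials

PROOF.  The set of `F : Pol` whose coefficients are in `ℚ + iℚ` is countable and contains `0`; let `H` enumerate it
(e.g. a surjection from `ℕ` onto the countable type `ℕ →₀ (ℕ →₀ (ℚ × ℚ))`, composed with the obvious map to `Pol`).
Given `G`, `ε`: let `D` be the total number of (coordinate, degree) pairs with nonzero coefficient, approximate each nonzero
coefficient by an element of `ℚ + iℚ` within `ε/(D+1)`; the support does not grow.  For `‖τ‖ ≤ 1` each coordinate changes by at most `ε`.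
-/

namespace Pool.Agent.HB

private noncomputable def cq (r : ℚ × ℚ) : ℂ := (r.1 : ℂ) + (r.2 : ℂ) * Complex.I

private theorem cq_near (z : ℂ) {δ : ℝ} (hδ : 0 < δ) : ∃ r : ℚ × ℚ, ‖cq r - z‖ ≤ δ := by
  obtain ⟨a, ha⟩ := exists_rat_near z.re (half_pos hδ)
  obtain ⟨b, hb⟩ := exists_rat_near z.im (half_pos hδ)
  refine ⟨(a, b), ?_⟩
  refine (Complex.norm_le_abs_re_add_abs_im _).trans ?_
  have h1 : (cq (a, b) - z).re = a - z.re := by simp [cq]
  have h2 : (cq (a, b) - z).im = b - z.im := by simp [cq]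
  rw [h1, h2, abs_sub_comm, abs_sub_comm (b : ℝ)]
  linarith

private noncomputable def pq (g : ℕ →₀ ℚ × ℚ) : Polynomial ℂ :=
  g.sum fun k a => Polynomial.monomial k (cq a)

private theorem pq_zero : pq 0 = 0 := Finsupp.sum_zero_index

private theorem pq_near (q : Polynomial ℂ) {ε : ℝ} (hε : 0 < ε) : ∃ g : ℕ →₀ ℚ × ℚ,
    ∀ τ : ℂ, ‖τ‖ ≤ 1 → ‖(pq g).eval τ - q.eval τ‖ ≤ ε := by
  classical
  have hd : (0 : ℝ) < q.natDegree + 1 := by positivity
  choose r hr using fun k : ℕ => cq_near (q.coeff k) (div_pos hε hd)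
  set g : ℕ →₀ ℚ × ℚ :=
    Finsupp.indicator (Finset.range (q.natDegree + 1)) (fun k _ => r k) with hg
  refine ⟨g, fun τ hτ => ?_⟩
  have hgk : ∀ k ∈ Finset.range (q.natDegree + 1), g k = r k := fun k hk => by
    rw [hg, Finsupp.indicator_of_mem hk]
  have hz : cq 0 = 0 := by simp [cq]
  have h1 : pq g = ∑ k ∈ Finset.range (q.natDegree + 1), Polynomial.monomial k (cq (r k)) := by
    rw [pq, Finsupp.sum_of_support_subset g (s := Finset.range (q.natDegree + 1))
      (Finsupp.support_indicator_subset _ _) _ (fun k _ => by rw [hz, map_zero])]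
    exact Finset.sum_congr rfl fun k hk => by rw [hgk k hk]
  rw [h1, Polynomial.eval_finsetSum, Polynomial.eval_eq_sum_range, ← Finset.sum_sub_distrib]
  have h2 : ∀ k ∈ Finset.range (q.natDegree + 1),
      ‖(Polynomial.monomial k (cq (r k))).eval τ - q.coeff k * τ ^ k‖ ≤ ε / (q.natDegree + 1) := by
    intro k _
    rw [Polynomial.eval_monomial, ← sub_mul, norm_mul, norm_pow]
    exact (mul_le_of_le_one_right (norm_nonneg _) (pow_le_one₀ (norm_nonneg _) hτ)).trans (hr k)
  refine (norm_sum_le_of_le _ h2).trans ?_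
  rw [Finset.sum_const, Finset.card_range, nsmul_eq_mul]
  push_cast
  rw [mul_div_cancel₀ _ hd.ne']

theorem dense_exists : ∃ H : ℕ → Pol, DenseEnum H := by
  classical
  obtain ⟨f, hf⟩ := exists_surjective_nat (ℕ →₀ (ℕ →₀ ℚ × ℚ))
  refine ⟨fun n => (f n).mapRange pq pq_zero, fun G ε hε => ?_⟩
  choose g hg using fun q : Polynomial ℂ => pq_near q hε
  obtain ⟨n, hn⟩ := hf (G.mapRange (fun q => if q = 0 then 0 else g q) (if_pos rfl))
  refine ⟨n, fun i hi => ?_, fun τ hτ i => ?_⟩
  · rw [Finsupp.mem_support_iff] at hi ⊢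
    intro h0
    apply hi
    rw [Finsupp.mapRange_apply, hn, Finsupp.mapRange_apply, h0, if_pos rfl, pq_zero]
  · rw [ev_apply, ev_apply, Finsupp.mapRange_apply, hn, Finsupp.mapRange_apply]
    by_cases h0 : G i = 0
    · rw [h0, if_pos rfl, pq_zero, sub_self, norm_zero]
      exact hε.le
    · rw [if_neg h0]
      exact hg (G i) τ hτ

end Pool.Agent.HB
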