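import Pool.Agent.HB.O.Fejer

/-!
# HB.O.Mod: Fejér means of a family of norms

PROOF.  Let `|y|_∞ = max_{i<n} ‖y i‖ ≤ W t y`.  (1) `B = ∑_{i<n} sup_t W t (single i 1)` (finite, continuity + compactness), so
`|W t y - W t y'| ≤ W t (y-y') ≤ B |y-y'|_∞` and `W t y ≤ B |y|_∞` for vectors with coordinates `< n`.
(2) *Modulus*: for `η > 0` there is `δ > 0` with `|W t y - W s y| ≤ η |y|_∞` whenever `‖1 - zz (t-s)‖ ≤ δ`: by homogeneity it suffices to
treat `|y|_∞ ≤ 1`; take a finite `η/(3B+3)`-net of the unit ball of `ℂ^n` (compact) and uniform continuity of the finitely many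
continuous functions `t ↦ W t y_k` on the compact circle.
(3) `∫ fej K (t-s) W s y ds ≤ ∫_{‖1-zz(t-s)‖≤δ} fej (W t y + η|y|_∞) + ∫_{>δ} fej · B |y|_∞ ≤ W t y + η |y|_∞ + 4B/((K+1)δ²) |y|_∞ ≤ (1+2η) W t y`
for `K` large.
-/

open Finset MeasureTheory Polynomial

namespace Pool.Agent.HB

private noncomputable def toC {n : ℕ} (v : Fin n → ℂ) : CV :=
  ∑ i : Fin n, Finsupp.single (i : ℕ) (v i)

private theorem toC_eq {n : ℕ} (y : CV) (hy : ∀ i, n ≤ i → y i = 0) :
    toC (fun i : Fin n => y (i : ℕ)) = y := by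
  ext j
  rw [toC, Finsupp.finsetSum_apply]
  by_cases hj : j < n
  · rw [Finset.sum_eq_single (⟨j, hj⟩ : Fin n)]
    · simp
    · intro b _ hb
      rw [Finsupp.single_apply, if_neg]
      intro h
      apply hb
      exact Fin.ext h
    · intro h
      exact absurd (Finset.mem_univ _) h
  · rw [hy j (by omega)]
    apply Finset.sum_eq_zero
    intro b _
    rw [Finsupp.single_apply, if_neg]
    intro h
    have := b.isLt
    omega

private theorem W_zero {W : TC → CV → ℝ} (hW : Fam W) (t : TC) : W t 0 = 0 := by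
  have h := hW.smul t 0 0
  simpa using h

private theorem W_sum {W : TC → CV → ℝ} (hW : Fam W) (t : TC) {ι : Type} (s : Finset ι)
    (f : ι → CV) : W t (∑ i ∈ s, f i) ≤ ∑ i ∈ s, W t (f i) := by
  classical
  induction s using Finset.induction_on with
  | empty => simp [W_zero hW]
  | insert a s ha ih =>
    rw [Finset.sum_insert ha, Finset.sum_insert ha]
    exact (hW.add t _ _).trans (by linarith)

private theorem W_sub {W : TC → CV → ℝ} (hW : Fam W) (t : TC) (x y : CV) :
    |W t x - W t y| ≤ W t (x - y) := by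
  have h1 : W t x ≤ W t (x - y) + W t y := by
    have := hW.add t (x - y) y
    rwa [sub_add_cancel] at this
  have h2 : W t y ≤ W t (y - x) + W t x := by
    have := hW.add t (y - x) x
    rwa [sub_add_cancel] at this
  have h3 : W t (y - x) = W t (x - y) := by
    have := hW.smul t (-1) (x - y)
    rw [neg_one_smul, neg_sub, norm_neg, norm_one, one_mul] at this
    exact this
  rw [abs_le]
  constructor <;> linarith

private theorem joint_cont {W : TC → CV → ℝ} (hW : Fam W) (n : ℕ) :
    Continuous fun p : TC × (Fin n → ℂ) => W p.1 (toC p.2) := by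
  rw [continuous_iff_continuousAt]
  rintro ⟨s, w⟩
  rw [ContinuousAt, tendsto_iff_dist_tendsto_zero]
  have hg : Continuous fun p : TC × (Fin n → ℂ) =>
      (∑ i : Fin n, ‖p.2 i - w i‖ * W p.1 (Finsupp.single (i : ℕ) 1)) +
        |W p.1 (toC w) - W s (toC w)| := by
    have h1 : ∀ i : Fin n, Continuous fun t : TC => W t (Finsupp.single (i : ℕ) 1) :=
      fun i => hW.cont _ (cur_const _)
    have h2 : Continuous fun t : TC => W t (toC w) := hW.cont _ (cur_const _)
    refine Continuous.add ?_ ?_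
    · refine continuous_finsetSum _ fun i _ => ?_
      exact (((continuous_apply i).comp continuous_snd).sub continuous_const).norm.mul
        ((h1 i).comp continuous_fst)
    · exact ((h2.comp continuous_fst).sub continuous_const).abs
  have hg0 := hg.tendsto (s, w)
  have hval : (∑ i : Fin n, ‖(s, w).2 i - w i‖ * W (s, w).1 (Finsupp.single (i : ℕ) 1)) +
        |W (s, w).1 (toC w) - W s (toC w)| = 0 := by
    simp
  rw [hval] at hg0
  refine squeeze_zero (fun p => dist_nonneg) (fun p => ?_) hg0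
  rw [Real.dist_eq]
  have e1 : |W p.1 (toC p.2) - W s (toC w)| ≤ |W p.1 (toC p.2) - W p.1 (toC w)| +
      |W p.1 (toC w) - W s (toC w)| := abs_sub_le _ _ _
  have e2 : |W p.1 (toC p.2) - W p.1 (toC w)| ≤ W p.1 (toC p.2 - toC w) := W_sub hW _ _ _
  have e3 : toC p.2 - toC w = ∑ i : Fin n, (p.2 i - w i) • Finsupp.single (i : ℕ) (1 : ℂ) := by
    rw [toC, toC, ← Finset.sum_sub_distrib]
    refine Finset.sum_congr rfl fun i _ => ?_
    rw [← Finsupp.single_sub, Finsupp.smul_single, smul_eq_mul, mul_one]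
  have e4 : W p.1 (toC p.2 - toC w) ≤
      ∑ i : Fin n, ‖p.2 i - w i‖ * W p.1 (Finsupp.single (i : ℕ) 1) := by
    rw [e3]
    refine (W_sum hW _ _ _).trans (le_of_eq ?_)
    exact Finset.sum_congr rfl fun i _ => hW.smul _ _ _
  show |W p.1 (toC p.2) - W s (toC w)| ≤ _
  linarith

private theorem zz_eq_one_iff {u : TC} (h : zz u = 1) : u = 0 := by
  have h1 : AddCircle.toCircle u = AddCircle.toCircle (0 : TC) := by
    rw [AddCircle.toCircle_zero]
    exact Subtype.ext h
  exact AddCircle.injective_toCircle (by norm_num) h1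

private theorem modulus {W : TC → CV → ℝ} (hW : Fam W) (n : ℕ) {η : ℝ} (hη : 0 < η) :
    ∃ δ : ℝ, 0 < δ ∧ ∀ (t s : TC) (v : Fin n → ℂ), (∀ i, ‖v i‖ ≤ 1) → ‖1 - zz (t - s)‖ < δ →
      |W t (toC v) - W s (toC v)| < η := by
  have hJ := joint_cont hW n
  have hcpt : IsCompact ({p : (TC × TC) × (Fin n → ℂ) | p.2 ∈ Metric.closedBall (0 : Fin n → ℂ) 1 ∧
      η ≤ |W p.1.1 (toC p.2) - W p.1.2 (toC p.2)|}) := by
    have hc1 : IsCompact ((Set.univ : Set (TC × TC)) ×ˢ Metric.closedBall (0 : Fin n → ℂ) 1) :=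
      isCompact_univ.prod (isCompact_closedBall _ _)
    have hc2 : IsClosed {p : (TC × TC) × (Fin n → ℂ) |
        η ≤ |W p.1.1 (toC p.2) - W p.1.2 (toC p.2)|} := by
      refine isClosed_le continuous_const ?_
      refine Continuous.abs (Continuous.sub ?_ ?_)
      · exact hJ.comp ((continuous_fst.comp continuous_fst).prodMk continuous_snd)
      · exact hJ.comp ((continuous_snd.comp continuous_fst).prodMk continuous_snd)
    have := hc1.inter_right hc2
    refine this.of_isClosed_subset ?_ ?_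
    · refine IsClosed.inter ?_ hc2
      exact Metric.isClosed_closedBall.preimage continuous_snd
    · rintro p ⟨hp1, hp2⟩
      exact ⟨⟨Set.mem_univ _, hp1⟩, hp2⟩
  have hf : ContinuousOn (fun p : (TC × TC) × (Fin n → ℂ) => ‖1 - zz (p.1.1 - p.1.2)‖)
      {p : (TC × TC) × (Fin n → ℂ) | p.2 ∈ Metric.closedBall (0 : Fin n → ℂ) 1 ∧
      η ≤ |W p.1.1 (toC p.2) - W p.1.2 (toC p.2)|} := by
    refine Continuous.continuousOn ?_
    refine (continuous_const.sub (zz_cont.comp ?_)).norm
    exact (continuous_fst.comp continuous_fst).sub (continuous_snd.comp continuous_fst)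
  obtain ⟨δ, hδ, hδ2⟩ := hcpt.exists_forall_le' hf (a := 0) (by
    rintro ⟨⟨t, s⟩, v⟩ ⟨-, hp2⟩
    rw [norm_pos_iff]
    intro h0
    have h1 : zz (t - s) = 1 := (sub_eq_zero.mp h0).symm
    have h2 := zz_eq_one_iff h1
    have h3 : t = s := sub_eq_zero.mp h2
    subst h3
    simp only [sub_self, abs_zero] at hp2
    linarith)
  refine ⟨δ, hδ, fun t s v hv hts => ?_⟩
  by_contra hcon
  rw [not_lt] at hcon
  have := hδ2 ((t, s), v) ⟨by
    rw [mem_closedBall_zero_iff, pi_norm_le_iff_of_nonneg zero_le_one]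
    exact hv, hcon⟩
  simp only at this
  linarith

private theorem bdd {W : TC → CV → ℝ} (hW : Fam W) (n : ℕ) :
    ∃ B : ℝ, 0 < B ∧ ∀ (s : TC) (v : Fin n → ℂ), (∀ i, ‖v i‖ ≤ 1) → W s (toC v) ≤ B := by
  have hJ := joint_cont hW n
  have hc1 : IsCompact ((Set.univ : Set TC) ×ˢ Metric.closedBall (0 : Fin n → ℂ) 1) :=
    isCompact_univ.prod (isCompact_closedBall _ _)
  obtain ⟨B, hB⟩ := (hc1.image hJ).bddAbove
  refine ⟨max B 1, lt_max_of_lt_right one_pos, fun s v hv => ?_⟩
  refine le_max_of_le_left (hB ⟨(s, v), ⟨Set.mem_univ _, ?_⟩, rfl⟩)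
  rw [mem_closedBall_zero_iff, pi_norm_le_iff_of_nonneg zero_le_one]
  exact hv

theorem fej_mod {W : TC → CV → ℝ} (hW : Fam W) (n : ℕ) {η : ℝ} (hη : 0 < η) :
    ∃ K : ℕ, ∀ (t : TC) (y : CV), (∀ i, n ≤ i → y i = 0) →
      ∫ s, fej K (t - s) * W s y ∂haar ≤ (1 + η) * W t y := by
  obtain ⟨δ, hδ, hmod⟩ := modulus hW n (half_pos hη)
  obtain ⟨B, hB, hbd⟩ := bdd hW n
  obtain ⟨K, hK⟩ := exists_nat_ge (8 * B / (η * δ ^ 2))
  refine ⟨K, fun t y hy => ?_⟩
  -- the tail constant
  have hKpos : (0 : ℝ) < (K : ℝ) + 1 := by positivity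
  have htail : 4 / (((K : ℝ) + 1) * δ ^ 2) * B ≤ η / 2 := by
    have h1 : 8 * B / (η * δ ^ 2) ≤ (K : ℝ) + 1 := by linarith
    rw [div_le_iff₀ (by positivity)] at h1
    rw [div_mul_eq_mul_div, div_le_iff₀ (by positivity)]
    nlinarith
  rcases (hW.nn t y).eq_or_lt with h0 | hc
  · -- y = 0
    have hy0 : y = 0 := by
      ext i
      have := hW.coord t y i
      rw [← h0] at this
      simpa using this
    subst hy0
    simp [W_zero hW]
  · obtain ⟨c, hcdef⟩ : ∃ c, c = W t y := ⟨_, rfl⟩
    rw [← hcdef] at hc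
    have hscale : ∀ s, W s (toC fun i : Fin n => (c : ℂ)⁻¹ * y (i : ℕ)) = c⁻¹ * W s y := by
      intro s
      have e1 : (toC fun i : Fin n => (c : ℂ)⁻¹ * y (i : ℕ)) = (c : ℂ)⁻¹ • y := by
        have := toC_eq (n := n) ((c : ℂ)⁻¹ • y) (fun i hi => by
          rw [Finsupp.smul_apply, hy i hi, smul_zero])
        rw [← this]
        rfl
      rw [e1, hW.smul, norm_inv, Complex.norm_real, Real.norm_of_nonneg hc.le]
    have hv1 : ∀ i : Fin n, ‖(c : ℂ)⁻¹ * y (i : ℕ)‖ ≤ 1 := by
      intro i
      rw [norm_mul, norm_inv, Complex.norm_real, Real.norm_of_nonneg hc.le, inv_mul_le_iff₀ hc,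
        mul_one, hcdef]
      exact hW.coord t y i
    have hnear : ∀ s, ‖1 - zz (t - s)‖ < δ → W s y ≤ (1 + η / 2) * c := by
      intro s hs
      have h1 := hmod t s _ hv1 hs
      rw [hscale, hscale, ← hcdef, ← mul_sub, abs_mul, abs_of_pos (inv_pos.mpr hc),
        inv_mul_lt_iff₀ hc] at h1
      have h2 := (abs_lt.mp h1).1
      linarith
    have hfar : ∀ s, W s y ≤ B * c := by
      intro s
      have h1 := hbd s _ hv1
      rw [hscale, inv_mul_le_iff₀ hc] at h1
      linarith
    have hWc : Continuous fun s => W s y := hW.cont _ (cur_const _)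
    have hfc : Continuous fun s => fej K (t - s) := (fej_cont K).comp (continuous_const.sub continuous_id)
    have hi1 : Integrable (fun s => fej K (t - s) * W s y) haar :=
      (hfc.mul hWc).integrable_of_hasCompactSupport (HasCompactSupport.of_compactSpace _)
    have hi2 : Integrable (fun s => fej K (t - s) * ((1 + η / 2) * c) + η / 2 * c) haar :=
      ((hfc.mul continuous_const).add continuous_const).integrable_of_hasCompactSupport
        (HasCompactSupport.of_compactSpace _)
    have hi3 : Integrable (fun s => fej K (t - s) * ((1 + η / 2) * c)) haar :=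
      (hfc.mul continuous_const).integrable_of_hasCompactSupport
        (HasCompactSupport.of_compactSpace _)
    have hpt : ∀ s, fej K (t - s) * W s y ≤ fej K (t - s) * ((1 + η / 2) * c) + η / 2 * c := by
      intro s
      have hf0 := fej_nonneg K (t - s)
      by_cases hs : ‖1 - zz (t - s)‖ < δ
      · have h1 := mul_le_mul_of_nonneg_left (hnear s hs) hf0
        have h2 : 0 ≤ η / 2 * c := by positivity
        linarith
      · rw [not_lt] at hs
        have hne : zz (t - s) ≠ 1 := by
          intro h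
          rw [h, sub_self, norm_zero] at hs
          linarith
        have h1 := fej_tail K (t - s) hne
        have h2 : 4 / (((K : ℝ) + 1) * ‖1 - zz (t - s)‖ ^ 2) ≤ 4 / (((K : ℝ) + 1) * δ ^ 2) := by
          apply div_le_div_of_nonneg_left (by norm_num) (by positivity)
          apply mul_le_mul_of_nonneg_left _ hKpos.le
          exact pow_le_pow_left₀ hδ.le hs 2
        have h3 : fej K (t - s) * W s y ≤ 4 / (((K : ℝ) + 1) * δ ^ 2) * (B * c) :=
          mul_le_mul (h1.trans h2) (hfar s) (hW.nn s y) (by positivity)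
        have h4 : 4 / (((K : ℝ) + 1) * δ ^ 2) * (B * c) ≤ η / 2 * c := by
          rw [← mul_assoc]
          exact mul_le_mul_of_nonneg_right htail hc.le
        have h5 : 0 ≤ fej K (t - s) * ((1 + η / 2) * c) := by positivity
        linarith
    calc ∫ s, fej K (t - s) * W s y ∂haar
        ≤ ∫ s, (fej K (t - s) * ((1 + η / 2) * c) + η / 2 * c) ∂haar :=
          integral_mono hi1 hi2 hpt
      _ = (1 + η / 2) * c + η / 2 * c := by
          rw [integral_add hi3 (integrable_const _), integral_mul_const, fej_int, one_mul,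
            integral_const]
          simp
      _ = (1 + η) * c := by ring
      _ = (1 + η) * W t y := by rw [hcdef]

end Pool.Agent.HB
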