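import Pool.Agent.HB.O.HBan
import Pool.Agent.HB.O.Mod

/-!
# HB.O.Dual: norming polynomial functionals

PROOF.  Choose `n` with all coordinates of `x` `< n`; `I = IN W x`; if `I ≤ ε` take `G = 0`, `r = 0`.  Let `η > 0` with `I/(1+η) ≥ I - ε`; `K` from
`fej_mod`, `Λ` from `hb_exists`.  Define `G` by `(G i) = ∑_{l ≤ k ≤ K} (1/(K+1)) Λ(s ↦ zz(-s)^{k-l} • single i 1) X^{k-l}` for `i < n`
(`0` otherwise).  By `fej_eq` and `Λ(s ↦ zz s^{m} • y) = 0` for `m ≥ 1` (terms `l > k`: `zz(-s)^k zz s^l = zz s^{l-k}`),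
`pr (ev (zz t) G) y = Λ(s ↦ fej K (t-s) • y)` for `y` with coordinates `< n`; so
`‖pr (ev (zz t) G) y‖ ≤ ∫ fej K (t-s) W s y ds ≤ (1+η) W t y`; for general `y` restrict to `Iio n` (`Fam.res`).
`pr (ev 0 G) x` = the constant coefficient `= Λ(s ↦ x)·(1/(K+1)) ∑_{k≤K} 1 = Λ(x)`, real part `I`.
Replace `G` by `(u/(1+η)) G`, `u` unimodular with `u Λ(x) = ‖Λ(x)‖ ≥ I`.  Finally restrict to `E` (`res E G`; `pr (res E g) y = pr g (res E y)`,
`res E x = x`, `Fam.res`).
-/

open Finset MeasureTheory Polynomial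

namespace Pool.Agent.HB

namespace DualAux

theorem cont_zz : Continuous zz := by
  have h : zz = fun t : TC => fourier 1 t := by
    funext t
    simp [zz, fourier_apply]
  rw [h]
  exact (fourier 1).continuous

theorem cont_zzn : Continuous fun t : TC => zz (-t) := cont_zz.comp continuous_neg

theorem zz_mul_neg (t : TC) : zz t * zz (-t) = 1 := by
  rw [zz_neg, Complex.mul_conj, Complex.normSq_eq_norm_sq]
  have : ‖zz t‖ = 1 := by
    unfold zz
    exact Circle.norm_coe _
  rw [this]
  simp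

/-- the curve `s ↦ u s • y` -/
noncomputable def mkC {n : ℕ} (u : TC → ℂ) (hu : Continuous u) (y : CV) (hy : ∀ i, n ≤ i → y i = 0) :
    CurS n :=
  ⟨fun s => u s • y, by
    refine ⟨fun t i hi => ?_, fun i => ?_⟩
    · simp [hy i hi]
    · have h := hu.mul (continuous_const (y := y i))
      exact h⟩

theorem mkC_congr {n : ℕ} {u v : TC → ℂ} (hu : Continuous u) (hv : Continuous v) (y : CV)
    (hy : ∀ i, n ≤ i → y i = 0) (h : ∀ s, u s = v s) : mkC (n := n) u hu y hy = mkC v hv y hy := by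
  apply Subtype.ext
  funext s
  show u s • y = v s • y
  rw [h s]

theorem pr_single (i : ℕ) (c : ℂ) (y : CV) : pr (Finsupp.single i c) y = c * y i := by
  unfold pr
  rw [Finsupp.sum_single_index]
  rw [zero_mul]

theorem ev_single (τ : ℂ) (i : ℕ) (q : ℂ[X]) :
    ev τ (Finsupp.single i q) = Finsupp.single i (q.eval τ) := by
  unfold ev
  rw [Finsupp.mapRange_single]

/-- basis vector cut at `n` -/
noncomputable def eb (n i : ℕ) : CV := Finsupp.single i (if i < n then (1 : ℂ) else 0)

theorem eb_van (n i : ℕ) : ∀ j, n ≤ j → eb n i j = 0 := by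
  intro j hj
  unfold eb
  rw [Finsupp.single_apply]
  split_ifs with h1 h2
  · omega
  · rfl
  · rfl

/-- The core: a polynomial `G` representing the Fejér means of `Λ`. -/
theorem core {n : ℕ} (K : ℕ) (Λ : CurS n →ₗ[ℂ] ℂ)
    (hΛ : ∀ (f : CurS n) (k : ℕ) (y : CV), 1 ≤ k → (∀ i, n ≤ i → y i = 0) →
        (∀ t, f.1 t = zz t ^ k • y) → Λ f = 0) :
    ∃ G : Pol, (∀ (t : TC) (y : CV), ∃ f : CurS n,
        (∀ s, f.1 s = (fej K (t - s) : ℂ) • res (Set.Iio n) y) ∧ pr (ev (zz t) G) y = Λ f) ∧
      ∀ (y : CV), ∃ f : CurS n, (∀ s, f.1 s = res (Set.Iio n) y) ∧ pr (ev 0 G) y = Λ f := by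
  classical
  have hKc : ((K : ℂ) + 1) ≠ 0 := by exact_mod_cast Nat.succ_ne_zero K
  have hcj : ∀ j : ℕ, Continuous fun s : TC => zz (-s) ^ j := fun j => cont_zzn.pow j
  let L : ℕ → ℕ → ℂ := fun j i => Λ (mkC (fun s => zz (-s) ^ j) (hcj j) (eb n i) (eb_van n i))
  let q : ℕ → ℂ[X] := fun i => ∑ k ∈ range (K + 1), ∑ l ∈ range (k + 1),
    C ((1 / ((K : ℂ) + 1)) * L (k - l) i) * X ^ (k - l)
  let G : Pol := ∑ i ∈ range n, Finsupp.single i (q i)
  have hpr : ∀ (τ : ℂ) (y : CV), pr (ev τ G) y = ∑ i ∈ range n, (q i).eval τ * y i := by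
    intro τ y
    rw [ev_sum, pr_sum_left]
    refine Finset.sum_congr rfl fun i _ => ?_
    rw [ev_single, pr_single]
  -- decomposition of the restricted vector
  have hdec : ∀ y : CV, res (Set.Iio n) y = ∑ i ∈ range n, y i • eb n i := by
    intro y
    ext j
    rw [res_apply, Finsupp.finsetSum_apply]
    by_cases hj : j < n
    · rw [if_pos (Set.mem_Iio.2 hj), Finset.sum_eq_single j]
      · simp [eb, hj]
      · intro i _ hij
        simp [eb, hij]
      · intro h
        exact absurd (Finset.mem_range.2 hj) h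
    · rw [if_neg (fun h => hj (Set.mem_Iio.1 h))]
      symm
      apply Finset.sum_eq_zero
      intro i hi
      have : eb n i j = 0 := eb_van n i j (not_lt.1 hj)
      simp [this]
  have hvan : ∀ y : CV, ∀ i, n ≤ i → res (Set.Iio n) y i = 0 := by
    intro y i hi
    exact res_apply_not_mem _ _ (fun h => absurd (Set.mem_Iio.1 h) (not_lt.2 hi))
  refine ⟨G, ?_, ?_⟩
  · intro t y
    have hcont : Continuous fun s : TC => ((fej K (t - s) : ℝ) : ℂ) :=
      Complex.continuous_ofReal.comp ((fej_cont K).comp (continuous_const.sub continuous_id))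
    refine ⟨mkC _ hcont (res (Set.Iio n) y) (hvan y), fun s => rfl, ?_⟩
    rw [hpr]
    -- expand the curve
    have hex : mkC _ hcont (res (Set.Iio n) y) (hvan y) =
        ∑ i ∈ range n, y i • ∑ k ∈ range (K + 1), ∑ l ∈ range (K + 1),
          ((1 / ((K : ℂ) + 1)) * (zz t ^ k * zz (-t) ^ l)) •
            mkC (n := n) (fun s => zz (-s) ^ k * zz s ^ l) ((hcj k).mul (cont_zz.pow l)) (eb n i)
              (eb_van n i) := by
      apply Subtype.ext
      funext s
      have h1 : (mkC _ hcont (res (Set.Iio n) y) (hvan y) : CurS n).1 s =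
        ((fej K (t - s) : ℝ) : ℂ) • res (Set.Iio n) y := rfl
      rw [h1, hdec, fej_eq]
      have h2 : (∑ i ∈ range n, y i • ∑ k ∈ range (K + 1), ∑ l ∈ range (K + 1),
          ((1 / ((K : ℂ) + 1)) * (zz t ^ k * zz (-t) ^ l)) •
            mkC (n := n) (fun s => zz (-s) ^ k * zz s ^ l) ((hcj k).mul (cont_zz.pow l)) (eb n i)
              (eb_van n i) : CurS n).1 s =
          ∑ i ∈ range n, y i • ∑ k ∈ range (K + 1), ∑ l ∈ range (K + 1),
          ((1 / ((K : ℂ) + 1)) * (zz t ^ k * zz (-t) ^ l)) •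
            ((zz (-s) ^ k * zz s ^ l) • eb n i) := by
        simp only [Submodule.coe_sum, Submodule.coe_smul, Finset.sum_apply, Pi.smul_apply]
        rfl
      rw [h2, Finset.smul_sum]
      refine Finset.sum_congr rfl fun i _ => ?_
      rw [smul_comm, Finset.sum_smul]
      congr 1
      refine Finset.sum_congr rfl fun k _ => ?_
      rw [Finset.sum_smul]
      refine Finset.sum_congr rfl fun l _ => ?_
      rw [smul_smul]
    rw [hex, map_sum]
    refine Finset.sum_congr rfl fun i _ => ?_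
    rw [map_smul, map_sum, smul_eq_mul, mul_comm]
    congr 1
    show (q i).eval (zz t) = _
    simp only [q]
    rw [eval_finsetSum]
    refine Finset.sum_congr rfl fun k hk => ?_
    have hk' : k + 1 ≤ K + 1 := Finset.mem_range.1 hk
    rw [map_sum, eval_finsetSum]
    have hsub : range (k + 1) ⊆ range (K + 1) := Finset.range_subset_range.2 hk'
    rw [← Finset.sum_subset hsub]
    · refine Finset.sum_congr rfl fun l hl => ?_
      have hl' : l ≤ k := Nat.lt_succ_iff.1 (Finset.mem_range.1 hl)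
      rw [map_smul, eval_mul, eval_C, eval_pow, eval_X, smul_eq_mul]
      have e1 : zz t ^ k * zz (-t) ^ l = zz t ^ (k - l) := by
        have : zz t ^ k = zz t ^ (k - l) * zz t ^ l := by
          rw [← pow_add, Nat.sub_add_cancel hl']
        rw [this, mul_assoc, ← mul_pow, zz_mul_neg, one_pow, mul_one]
      have e2 : mkC (n := n) (fun s => zz (-s) ^ k * zz s ^ l) ((hcj k).mul (cont_zz.pow l)) (eb n i)
              (eb_van n i) = mkC (fun s => zz (-s) ^ (k - l)) (hcj (k - l)) (eb n i) (eb_van n i) := by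
        apply mkC_congr
        intro s
        have : zz (-s) ^ k = zz (-s) ^ (k - l) * zz (-s) ^ l := by
          rw [← pow_add, Nat.sub_add_cancel hl']
        rw [this, mul_assoc, ← mul_pow, mul_comm (zz (-s)) (zz s), zz_mul_neg, one_pow, mul_one]
      rw [e1, e2]
      simp only [L]
      ring
    · intro l hl hl2
      have hlk : k < l := by
        by_contra h
        exact hl2 (Finset.mem_range.2 (Nat.lt_succ_iff.2 (not_lt.1 h)))
      rw [map_smul]
      have : Λ (mkC (n := n) (fun s => zz (-s) ^ k * zz s ^ l) ((hcj k).mul (cont_zz.pow l)) (eb n i)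
              (eb_van n i)) = 0 := by
        apply hΛ _ (l - k) (eb n i) (by omega) (eb_van n i)
        intro s
        show (zz (-s) ^ k * zz s ^ l) • eb n i = zz s ^ (l - k) • eb n i
        congr 1
        have : zz s ^ l = zz s ^ k * zz s ^ (l - k) := by
          rw [← pow_add, Nat.add_sub_cancel' hlk.le]
        rw [this, ← mul_assoc, ← mul_pow, mul_comm (zz (-s)) (zz s), zz_mul_neg, one_pow, one_mul]
      rw [this, smul_zero]
  · intro y
    refine ⟨mkC (fun _ => 1) continuous_const (res (Set.Iio n) y) (hvan y), fun s => ?_, ?_⟩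
    · show (1 : ℂ) • _ = _
      rw [one_smul]
    · rw [hpr]
      have hex : (mkC (fun _ => 1) continuous_const (res (Set.Iio n) y) (hvan y) : CurS n) =
          ∑ i ∈ range n, y i • mkC (fun s => zz (-s) ^ 0) (hcj 0) (eb n i) (eb_van n i) := by
        apply Subtype.ext
        funext s
        have h1 : (mkC (fun _ => 1) continuous_const (res (Set.Iio n) y) (hvan y) : CurS n).1 s =
          (1 : ℂ) • res (Set.Iio n) y := rfl
        have h2 : (∑ i ∈ range n, y i • mkC (fun s => zz (-s) ^ 0) (hcj 0) (eb n i)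
            (eb_van n i) : CurS n).1 s = ∑ i ∈ range n, y i • ((zz (-s) ^ 0) • eb n i) := by
          simp only [Submodule.coe_sum, Submodule.coe_smul, Finset.sum_apply, Pi.smul_apply]
          rfl
        rw [h1, h2, hdec, one_smul]
        refine Finset.sum_congr rfl fun i _ => ?_
        rw [pow_zero, one_smul]
      rw [hex, map_sum]
      refine Finset.sum_congr rfl fun i _ => ?_
      rw [map_smul, smul_eq_mul, mul_comm]
      congr 1
      show (q i).eval 0 = L 0 i
      simp only [q]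
      rw [eval_finsetSum]
      have hk : ∀ k ∈ range (K + 1), eval 0 (∑ l ∈ range (k + 1),
          C ((1 / ((K : ℂ) + 1)) * L (k - l) i) * X ^ (k - l)) = (1 / ((K : ℂ) + 1)) * L 0 i := by
        intro k _
        rw [eval_finsetSum, Finset.sum_eq_single k]
        · simp
        · intro l hl hlk
          have hl' : l < k + 1 := Finset.mem_range.1 hl
          have : k - l ≠ 0 := by omega
          simp [this]
        · intro h
          exact absurd (Finset.self_mem_range_succ k) h
      rw [Finset.sum_congr rfl hk, Finset.sum_const, Finset.card_range, nsmul_eq_mul]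
      push_cast
      field_simp

end DualAux

open DualAux

theorem dual_exists {W : TC → CV → ℝ} (hW : Fam W) (x : CV) (E : Set ℕ) (hE : E.OrdConnected)
    (hx : res E x = x) {ε : ℝ} (hε : 0 < ε) :
    ∃ (G : Pol) (r : ℝ), res E G = G ∧ (∀ t y, ‖pr (ev (zz t) G) y‖ ≤ W t y) ∧
      pr (ev 0 G) x = (r : ℂ) ∧ IN W x - ε ≤ r := by
  classical
  obtain ⟨n, hn⟩ : ∃ n, ∀ i, n ≤ i → x i = 0 := by
    refine ⟨x.support.sup id + 1, fun i hi => ?_⟩
    by_contra h
    have h1 : i ∈ x.support := Finsupp.mem_support_iff.2 h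
    have h2 : id i ≤ x.support.sup id := Finset.le_sup h1
    simp only [id] at h2
    omega
  have hI : 0 ≤ IN W x := IN_nonneg hW x
  set η : ℝ := ε / (IN W x + 1) with hη
  have hη0 : 0 < η := by positivity
  obtain ⟨K, hK⟩ := fej_mod hW n hη0
  obtain ⟨Λ, hΛ1, hΛ2, hΛ3⟩ := hb_exists hW n x hn
  obtain ⟨G, hG1, hG2⟩ := core K Λ hΛ2
  have hresx : res (Set.Iio n) x = x := by
    apply res_eq_self
    intro i hi
    by_contra h
    exact (Finsupp.mem_support_iff.1 hi) (hn i (not_lt.1 h))
  -- the value at zero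
  obtain ⟨f0, hf0, hf0'⟩ := hG2 x
  rw [hresx] at hf0
  have hre := hΛ3 f0 hf0
  set z : ℂ := Λ f0 with hz
  have hznorm : IN W x ≤ ‖z‖ := by
    rw [← hre]
    exact Complex.re_le_norm z
  -- the bound on the circle
  have hbd : ∀ t y, ‖pr (ev (zz t) G) y‖ ≤ (1 + η) * W t y := by
    intro t y
    obtain ⟨f, hf, hf'⟩ := hG1 t y
    rw [hf']
    refine le_trans (hΛ1 f) ?_
    have h1 : ∫ s, W s (f.1 s) ∂haar = ∫ s, fej K (t - s) * W s (res (Set.Iio n) y) ∂haar := by
      congr 1
      funext s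
      rw [hf s, hW.smul, Complex.norm_real, Real.norm_eq_abs, abs_of_nonneg (fej_nonneg K _)]
    rw [h1]
    refine le_trans (hK t (res (Set.Iio n) y) ?_) ?_
    · intro i hi
      exact res_apply_not_mem _ _ (fun h => absurd (Set.mem_Iio.1 h) (not_lt.2 hi))
    · apply mul_le_mul_of_nonneg_left _ (by positivity)
      exact hW.res t y (Set.Iio n) Set.ordConnected_Iio
  obtain ⟨u, hu1, hu2⟩ : ∃ u : ℂ, ‖u‖ = 1 ∧ u * z = (‖z‖ : ℂ) := by
    by_cases hz0 : z = 0
    · exact ⟨1, norm_one, by rw [hz0]; simp⟩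
    · refine ⟨(starRingEnd ℂ) z / ‖z‖, ?_, ?_⟩
      · rw [norm_div, RCLike.norm_conj, Complex.norm_real, norm_norm]
        exact div_self (norm_ne_zero_iff.2 hz0)
      · rw [div_mul_eq_mul_div, mul_comm, Complex.mul_conj, Complex.normSq_eq_norm_sq]
        have : (‖z‖ : ℂ) ≠ 0 := by exact_mod_cast (norm_ne_zero_iff.2 hz0)
        push_cast
        field_simp
  have hη1 : (0 : ℝ) < 1 + η := by positivity
  have hη1c : ((1 + η : ℝ) : ℂ) ≠ 0 := by exact_mod_cast hη1.ne'
  set a : ℂ := u / ((1 + η : ℝ) : ℂ) with ha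
  have hanorm : ‖a‖ = 1 / (1 + η) := by
    rw [ha, norm_div, hu1, Complex.norm_real, Real.norm_eq_abs, abs_of_pos hη1]
  refine ⟨res E ((C a : ℂ[X]) • G), ‖z‖ / (1 + η), ?_, ?_, ?_, ?_⟩
  · rw [res_res, Set.inter_self]
  · intro t y
    rw [ev_res, pr_res_left, ev_smul, eval_C, pr_smul_left, norm_mul, hanorm]
    have h1 := hbd t (res E y)
    have h2 := hW.res t y E hE
    calc 1 / (1 + η) * ‖pr (ev (zz t) G) (res E y)‖ ≤ 1 / (1 + η) * ((1 + η) * W t (res E y)) :=
          mul_le_mul_of_nonneg_left h1 (by positivity)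
      _ = W t (res E y) := by field_simp
      _ ≤ W t y := h2
  · rw [ev_res, pr_res_left, hx, ev_smul, eval_C, pr_smul_left, hf0', ha]
    push_cast
    rw [div_mul_eq_mul_div, hu2]
  · rw [le_div_iff₀ hη1]
    have h1 : η * IN W x ≤ ε := by
      rw [hη, div_mul_eq_mul_div, div_le_iff₀ (by positivity)]
      nlinarith
    nlinarith

end Pool.Agent.HB
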