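import Pool.Agent.HB.S.Chi

/-!
# HB.O.Circle: polynomials, curves and the measure on the circle

PROOFS.  `zz t = fourier 1 t` (`fourier_apply`, `toCircle`), `zz t ^ k = fourier k t`; `∫ zz t ^ k = 0` for `k ≥ 1`
(`integral` of a nontrivial character: `fourierIntegral`-lemmas, or translate by `t0` with `zz t0 ^ k ≠ 1`, or
`orthonormal_fourier`); so `mean_poly` by linearity.  `max_poly`: `‖q.eval 0‖ = ‖∫ q.eval (zz t)‖ ≤ A`.
`haar_one`: the fibre `{t | zz t = 1}` is `{0}` (`AddCircle.injective_toCircle`), no atoms.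
`tn s = max 0 (min (4 (s-1)) (4 (3/2 - s)))` is continuous, `0 ≤ tn ≤ 1`, supported in `[1, 3/2]`.
`tn_int`: `‖1 - zz t‖ = 2 |sin (π t)|`.  Write the integral over the circle as `∫_0^1` (`AddCircle.intervalIntegral_preimage` for
`T = 1`, haar = volume); `φ x = 2 sin (π x)` is continuous on `[0,1/2]`, `φ 0 = 0`, `φ (1/2) = 2`; choose `a < b` in `[0,1/2]` with
`φ a = 9d/8`, `φ b = 11d/8` and `φ` increasing; `φ b - φ a ≤ 2π (b-a)` so `b - a ≥ d/(8π)`; on `[a,b]` `tn (φ x/d) ≥ 1/2`.
So the integral is `≥ d/(16π) ≥ d/60`.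
-/

open Finset MeasureTheory Polynomial

noncomputable section

namespace Pool.Agent.HB

theorem zz_pow (t : TC) (k : ℕ) : zz t ^ k = fourier (k : ℤ) t := by
  unfold zz
  rw [fourier_apply]
  have : ((k : ℤ) • t : TC) = k • t := by simp
  rw [this, AddCircle.toCircle_nsmul]
  simp

theorem int_zz_pow (k : ℕ) : ∫ t, zz t ^ k ∂haar = if k = 0 then 1 else 0 := by
  have h := congrFun (fourierCoeff_fourier (T := (1 : ℝ)) (k : ℤ)) 0
  unfold fourierCoeff at h
  have h2 : ∫ t, zz t ^ k ∂haar = ∫ t : AddCircle (1 : ℝ), (fourier (-0) t : ℂ) • (fourier (k : ℤ) t : ℂ) ∂haar := by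
    refine integral_congr_ae (Filter.Eventually.of_forall fun t => ?_)
    simp only [zz_pow]
    simp
  rw [h2, h]
  by_cases hk : k = 0
  · subst hk; simp
  · rw [if_neg hk]
    have : ((0 : ℤ)) ≠ (k : ℤ) := by
      intro h'; exact hk (by exact_mod_cast h'.symm)
    simp [this]

theorem cont_int {f : TC → ℂ} (hf : Continuous f) : Integrable f haar := by
  exact hf.integrable_of_hasCompactSupport (HasCompactSupport.of_compactSpace f)

theorem cont_int_real {f : TC → ℝ} (hf : Continuous f) : Integrable f haar := by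
  exact hf.integrable_of_hasCompactSupport (HasCompactSupport.of_compactSpace f)

theorem mean_poly (q : ℂ[X]) : ∫ t, q.eval (zz t) ∂haar = q.eval 0 := by
  have h1 : ∀ t : TC, q.eval (zz t) = ∑ k ∈ range (q.natDegree + 1), q.coeff k * zz t ^ k := by
    intro t
    exact Polynomial.eval_eq_sum_range _
  simp only [h1]
  rw [integral_finsetSum]
  · have h2 : ∀ k : ℕ, ∫ t, q.coeff k * zz t ^ k ∂haar = q.coeff k * (if k = 0 then 1 else 0) := by
      intro k
      rw [integral_const_mul, int_zz_pow]
    simp only [h2]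
    rw [Finset.sum_range_succ']
    simp [Polynomial.coeff_zero_eq_eval_zero]
  · intro k _
    exact cont_int (continuous_const.mul (zz_cont.pow k))

theorem max_poly (q : ℂ[X]) {A : ℝ} (h : ∀ t, ‖q.eval (zz t)‖ ≤ A) : ‖q.eval 0‖ ≤ A := by
  rw [← mean_poly q]
  refine (norm_integral_le_of_norm_le_const (Filter.Eventually.of_forall h)).trans ?_
  simp

theorem haar_one : haar {t : TC | zz t = 1} = 0 := by
  have h : {t : TC | zz t = 1} = {0} := by
    ext t
    simp only [Set.mem_ofPred_eq, Set.mem_singleton_iff]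
    constructor
    · intro ht
      apply AddCircle.injective_toCircle (T := (1 : ℝ)) one_ne_zero
      rw [AddCircle.toCircle_zero]
      exact Subtype.ext ht
    · intro ht
      subst ht
      simp [zz]
  rw [h]
  have hv : (MeasureTheory.volume : Measure TC) = haar := by
    rw [AddCircle.volume_eq_smul_haarAddCircle]
    simp
  rw [← hv]
  have h0 := AddCircle.volume_closedBall (T := (1 : ℝ)) (x := (0 : AddCircle (1 : ℝ))) 0
  rw [Metric.closedBall_zero] at h0
  rw [h0]
  simp

theorem zz_add (s t : TC) : zz (s + t) = zz s * zz t := by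
  unfold zz
  rw [AddCircle.toCircle_add]
  rfl

theorem zz_neg (s : TC) : zz (-s) = (starRingEnd ℂ) (zz s) := by
  unfold zz
  rw [AddCircle.toCircle_neg, Circle.coe_inv_eq_conj]

theorem cur_ev (F : Pol) : IsCur fun t => ev (zz t) F := by
  refine ⟨⟨F.support.sup id + 1, fun t i hi => ?_⟩, fun i => ?_⟩
  · have h0 : F i = 0 := by
      by_contra hne
      have hmem : i ∈ F.support := Finsupp.mem_support_iff.mpr hne
      have := Finset.le_sup (f := id) hmem
      simp only [id] at this
      omega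
    simp [ev, Finsupp.mapRange_apply, h0]
  · simp only [ev, Finsupp.mapRange_apply]
    exact (F i).continuous.comp zz_cont

theorem cur_const (x : CV) : IsCur fun _ => x := by
  refine ⟨⟨x.support.sup id + 1, fun t i hi => ?_⟩, fun i => continuous_const⟩
  by_contra hne
  have hmem : i ∈ x.support := Finsupp.mem_support_iff.mpr hne
  have := Finset.le_sup (f := id) hmem
  simp only [id] at this
  omega

theorem cur_add {F G : TC → CV} (hF : IsCur F) (hG : IsCur G) : IsCur fun t => F t + G t := by
  obtain ⟨⟨n, hn⟩, h1⟩ := hF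
  obtain ⟨⟨m, hm⟩, h2⟩ := hG
  refine ⟨⟨max n m, fun t i hi => ?_⟩, fun i => ?_⟩
  · simp [hn t i (le_trans (le_max_left _ _) hi), hm t i (le_trans (le_max_right _ _) hi)]
  · simp only [Finsupp.add_apply]
    exact (h1 i).add (h2 i)

theorem cur_sub {F G : TC → CV} (hF : IsCur F) (hG : IsCur G) : IsCur fun t => F t - G t := by
  obtain ⟨⟨n, hn⟩, h1⟩ := hF
  obtain ⟨⟨m, hm⟩, h2⟩ := hG
  refine ⟨⟨max n m, fun t i hi => ?_⟩, fun i => ?_⟩
  · simp [hn t i (le_trans (le_max_left _ _) hi), hm t i (le_trans (le_max_right _ _) hi)]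
  · simp only [Finsupp.sub_apply]
    exact (h1 i).sub (h2 i)

theorem cur_sum {ι : Type} (s : Finset ι) {F : ι → TC → CV} (hF : ∀ i ∈ s, IsCur (F i)) :
    IsCur fun t => ∑ i ∈ s, F i t := by
  classical
  induction s using Finset.induction_on with
  | empty =>
    simp only [Finset.sum_empty]
    exact cur_const 0
  | insert a s ha ih =>
    simp only [Finset.sum_insert ha]
    exact cur_add (hF a (Finset.mem_insert_self a s))
      (ih fun i hi => hF i (Finset.mem_insert_of_mem hi))

theorem cur_smul {F : TC → CV} (hF : IsCur F) {g : TC → ℂ} (hg : Continuous g) :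
    IsCur fun t => g t • F t := by
  obtain ⟨⟨n, hn⟩, h1⟩ := hF
  refine ⟨⟨n, fun t i hi => ?_⟩, fun i => ?_⟩
  · simp [hn t i hi]
  · simp only [Finsupp.smul_apply]
    exact hg.smul (h1 i)

theorem cur_rsmul {F : TC → CV} (hF : IsCur F) {g : TC → ℝ} (hg : Continuous g) :
    IsCur fun t => g t • F t := by
  obtain ⟨⟨n, hn⟩, h1⟩ := hF
  refine ⟨⟨n, fun t i hi => ?_⟩, fun i => ?_⟩
  · simp [hn t i hi]
  · simp only [Finsupp.smul_apply]
    exact hg.smul (h1 i)

theorem cur_res {F : TC → CV} (hF : IsCur F) (E : Set ℕ) : IsCur fun t => res E (F t) := by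
  obtain ⟨⟨n, hn⟩, h1⟩ := hF
  classical
  refine ⟨⟨n, fun t i hi => ?_⟩, fun i => ?_⟩
  · simp only [res, Finsupp.filter_apply]
    rw [hn t i hi]
    simp
  · by_cases hi : i ∈ E
    · have : (fun t => (res E (F t)) i) = fun t => F t i := by
        funext t
        simp [res, hi]
      rw [this]
      exact h1 i
    · have : (fun t => (res E (F t)) i) = fun t => 0 := by
        funext t
        simp [res, hi]
      rw [this]
      exact continuous_const

/-- tent function supported in `[1, 3/2]` -/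
def tn (s : ℝ) : ℝ := max 0 (min (4 * (s - 1)) (4 * (3 / 2 - s)))

theorem tn_cont : Continuous tn := by
  unfold tn
  fun_prop

theorem tn_nonneg (s : ℝ) : 0 ≤ tn s := by
  exact le_max_left _ _

theorem tn_le_one (s : ℝ) : tn s ≤ 1 := by
  unfold tn
  refine max_le zero_le_one ?_
  rcases le_total s (5 / 4) with h | h
  · exact (min_le_left _ _).trans (by linarith)
  · exact (min_le_right _ _).trans (by linarith)

theorem tn_ne {s : ℝ} (h : tn s ≠ 0) : 1 < s ∧ s < 3 / 2 := by
  unfold tn at h
  constructor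
  · by_contra hle
    push Not at hle
    apply h
    apply max_eq_left
    exact (min_le_left _ _).trans (by linarith)
  · by_contra hle
    push Not at hle
    apply h
    apply max_eq_left
    exact (min_le_right _ _).trans (by linarith)

theorem tn_int (d : ℝ) (hd : 0 < d) (hd1 : d ≤ 1) :
    d / 60 ≤ ∫ t, tn (‖1 - zz t‖ / d) ∂haar := by
  have hpi := Real.pi_pos
  have hpi2 : Real.pi < 3.15 := Real.pi_lt_d2
  have hnorm : ∀ x : ℝ, 0 ≤ x → x ≤ 1 / 2 → ‖1 - zz ((x : ℝ) : TC)‖ = 2 * Real.sin (Real.pi * x) := by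
    intro x hx0 hx1
    unfold zz
    rw [AddCircle.toCircle_apply_mk, Circle.coe_exp]
    rw [norm_sub_rev]
    have he : ((2 * Real.pi / 1 * x : ℝ) : ℂ) * Complex.I = Complex.I * ((2 * (Real.pi * x) : ℝ) : ℂ) := by
      push_cast
      ring
    rw [he, Complex.norm_exp_I_mul_ofReal_sub_one]
    have h2 : 2 * (Real.pi * x) / 2 = Real.pi * x := by ring
    rw [h2, Real.norm_of_nonneg]
    have : 0 ≤ Real.sin (Real.pi * x) := by
      apply Real.sin_nonneg_of_nonneg_of_le_pi
      · positivity
      · nlinarith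
    linarith
  have hcont : Continuous fun t : TC => tn (‖1 - zz t‖ / d) :=
    tn_cont.comp (((continuous_const.sub zz_cont).norm).div_const d)
  have hI : ∫ t, tn (‖1 - zz t‖ / d) ∂haar = ∫ x in (0 : ℝ)..1, tn (‖1 - zz ((x : ℝ) : TC)‖ / d) := by
    have h1 := AddCircle.integral_haarAddCircle (T := (1 : ℝ)) (f := fun t : AddCircle (1 : ℝ) => tn (‖1 - zz t‖ / d))
    have h2 := UnitAddCircle.intervalIntegral_preimage 0 (fun t : UnitAddCircle => tn (‖1 - zz t‖ / d))
    rw [zero_add] at h2
    rw [h2]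
    rw [h1]
    simp
  rw [hI]
  set g : ℝ → ℝ := fun x => tn (‖1 - zz ((x : ℝ) : TC)‖ / d) with hg
  have hgc : Continuous g := hcont.comp (AddCircle.continuous_mk' (1 : ℝ))
  have hg0 : ∀ x, 0 ≤ g x := fun x => tn_nonneg _
  set a : ℝ := Real.arcsin (9 * d / 16) / Real.pi with ha
  set b : ℝ := Real.arcsin (11 * d / 16) / Real.pi with hb
  have hsa : Real.sin (Real.pi * a) = 9 * d / 16 := by
    rw [ha, mul_div_cancel₀ _ hpi.ne']
    exact Real.sin_arcsin (by linarith) (by linarith)
  have hsb : Real.sin (Real.pi * b) = 11 * d / 16 := by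
    rw [hb, mul_div_cancel₀ _ hpi.ne']
    exact Real.sin_arcsin (by linarith) (by linarith)
  have ha0 : 0 ≤ a := by
    rw [ha]
    exact div_nonneg (Real.arcsin_nonneg.mpr (by positivity)) hpi.le
  have hb1 : b ≤ 1 / 2 := by
    rw [hb, div_le_iff₀ hpi]
    have := Real.arcsin_le_pi_div_two (11 * d / 16)
    linarith
  have hlip : 2 * d / 16 ≤ Real.pi * (b - a) := by
    have hab : a ≤ b := by
      rw [ha, hb]
      exact div_le_div_of_nonneg_right (Real.monotone_arcsin (by linarith)) hpi.le
    have h1 : Real.sin (Real.pi * b) - Real.sin (Real.pi * a) ≤ Real.pi * b - Real.pi * a := by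
      have hx : 0 ≤ Real.pi * (b - a) := mul_nonneg hpi.le (by linarith)
      have h2 : Real.sin (Real.pi * b) - Real.sin (Real.pi * a)
          = 2 * Real.sin ((Real.pi * b - Real.pi * a) / 2) * Real.cos ((Real.pi * b + Real.pi * a) / 2) :=
        Real.sin_sub_sin _ _
      rw [h2]
      have h3 : Real.sin ((Real.pi * b - Real.pi * a) / 2) ≤ (Real.pi * b - Real.pi * a) / 2 :=
        Real.sin_le (by linarith)
      have h4 : 0 ≤ Real.sin ((Real.pi * b - Real.pi * a) / 2) := by
        apply Real.sin_nonneg_of_nonneg_of_le_pi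
        · linarith
        · nlinarith
      have h5 := Real.cos_le_one ((Real.pi * b + Real.pi * a) / 2)
      nlinarith
    rw [hsa, hsb] at h1
    linarith
  have hab : a ≤ b := by
    by_contra hcon
    push Not at hcon
    have : Real.pi * (b - a) ≤ 0 := mul_nonpos_of_nonneg_of_nonpos hpi.le (by linarith)
    linarith
  have hge : ∀ x ∈ Set.Icc a b, (1 / 2 : ℝ) ≤ g x := by
    intro x hx
    have hx0 : 0 ≤ x := ha0.trans hx.1
    have hx1 : x ≤ 1 / 2 := hx.2.trans hb1
    simp only [hg]
    rw [hnorm x hx0 hx1]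
    have hm1 : Real.sin (Real.pi * a) ≤ Real.sin (Real.pi * x) := by
      apply Real.sin_le_sin_of_le_of_le_pi_div_two
      · have : 0 ≤ Real.pi * a := mul_nonneg hpi.le ha0
        linarith
      · nlinarith
      · exact mul_le_mul_of_nonneg_left hx.1 hpi.le
    have hm2 : Real.sin (Real.pi * x) ≤ Real.sin (Real.pi * b) := by
      apply Real.sin_le_sin_of_le_of_le_pi_div_two
      · have : 0 ≤ Real.pi * x := mul_nonneg hpi.le hx0
        linarith
      · nlinarith
      · exact mul_le_mul_of_nonneg_left hx.2 hpi.le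
    rw [hsa] at hm1
    rw [hsb] at hm2
    have hl : 9 / 8 ≤ 2 * Real.sin (Real.pi * x) / d := by
      rw [le_div_iff₀ hd]
      linarith
    have hu : 2 * Real.sin (Real.pi * x) / d ≤ 11 / 8 := by
      rw [div_le_iff₀ hd]
      linarith
    unfold tn
    refine le_max_of_le_right (le_min ?_ ?_)
    · linarith
    · linarith
  have hint : ∀ u v : ℝ, IntervalIntegrable g volume u v := fun u v => hgc.intervalIntegrable u v
  have hsplit : ∫ x in (0 : ℝ)..1, g x = (∫ x in (0 : ℝ)..a, g x) + (∫ x in a..b, g x) + ∫ x in b..1, g x := by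
    rw [intervalIntegral.integral_add_adjacent_intervals (hint _ _) (hint _ _),
      intervalIntegral.integral_add_adjacent_intervals (hint _ _) (hint _ _)]
  have h1 : 0 ≤ ∫ x in (0 : ℝ)..a, g x := intervalIntegral.integral_nonneg ha0 fun x _ => hg0 x
  have h3 : 0 ≤ ∫ x in b..1, g x :=
    intervalIntegral.integral_nonneg (by linarith) fun x _ => hg0 x
  have h2 : (b - a) * (1 / 2) ≤ ∫ x in a..b, g x := by
    have h := intervalIntegral.integral_mono_on hab (f := fun _ => (1 / 2 : ℝ)) (g := g)
      (by simp) (hint a b) hge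
    rw [intervalIntegral.integral_const, smul_eq_mul] at h
    exact h
  rw [hsplit]
  have hba : d / 30 ≤ b - a := by
    have h0 : 0 ≤ b - a := by linarith
    nlinarith
  linarith

end Pool.Agent.HB
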