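import Pool.Agent.HB.O.Circle

/-!
# HB.O.Fejer: the Fejér kernel

`fej K u = (1/(K+1)) ‖∑_{k≤K} zz u^k‖²`.
PROOFS.  Continuity, nonnegativity clear.  `fej_eq`: `‖∑ a_k‖² = (∑ a_k) conj(∑ a_l)`, `conj (zz u) = zz (-u)`.
`fej_int`: `∫ zz^k conj(zz)^l = δ_{kl}`.  `fej_tail`: geometric sum `∑_{k≤K} z^k = (z^{K+1}-1)/(z-1)`, so
`fej K u ≤ 4/((K+1) ‖1 - zz u‖²)`.
-/

open Finset MeasureTheory Polynomial

noncomputable section

namespace Pool.Agent.HB

def fej (K : ℕ) (u : TC) : ℝ := (1 / ((K : ℝ) + 1)) * ‖∑ k ∈ range (K + 1), zz u ^ k‖ ^ 2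

theorem fej_cont (K : ℕ) : Continuous (fej K) :=
  continuous_const.mul ((continuous_finsetSum _ fun k _ => zz_cont.pow k).norm.pow 2)

theorem fej_nonneg (K : ℕ) (u : TC) : 0 ≤ fej K u := by
  unfold fej
  positivity

private theorem fej_zz_mul (s : TC) : zz (-s) * zz s = 1 := by
  rw [zz_neg, mul_comm, Complex.mul_conj', norm_zz]
  norm_num

private theorem fej_eq' (K : ℕ) (t s : TC) :
    (fej K (t - s) : ℂ) = ∑ k ∈ range (K + 1), ∑ l ∈ range (K + 1),
      (1 / ((K : ℂ) + 1)) * (zz t ^ k * zz (-t) ^ l) * (zz (-s) ^ k * zz s ^ l) := by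
  have h1 : zz (t - s) = zz t * zz (-s) := by rw [sub_eq_add_neg, zz_add]
  have h2 : (starRingEnd ℂ) (zz (t - s)) = zz (-t) * zz s := by
    rw [← zz_neg, neg_sub, sub_eq_add_neg, zz_add, mul_comm]
  have h3 : ((‖∑ k ∈ range (K + 1), zz (t - s) ^ k‖ : ℝ) : ℂ) ^ 2 =
      (∑ k ∈ range (K + 1), zz (t - s) ^ k) * ∑ l ∈ range (K + 1), (zz (-t) * zz s) ^ l := by
    rw [← Complex.mul_conj', map_sum]
    congr 1
    refine sum_congr rfl fun l _ => ?_
    rw [map_pow, h2]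
  unfold fej
  push_cast
  rw [h3, h1, sum_mul_sum, mul_sum]
  refine sum_congr rfl fun k _ => ?_
  rw [mul_sum]
  refine sum_congr rfl fun l _ => ?_
  rw [mul_pow, mul_pow]
  ring

private theorem fej_mean (m : ℕ) : ∫ s, zz s ^ m ∂haar = if m = 0 then 1 else 0 := by
  have h := mean_poly (X ^ m)
  simp only [eval_pow, eval_X] at h
  rw [h]
  split_ifs with h0
  · rw [h0, pow_zero]
  · exact zero_pow h0

private theorem fej_mean2 (k l : ℕ) :
    ∫ s, zz (-s) ^ k * zz s ^ l ∂haar = if k = l then 1 else 0 := by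
  rcases le_total k l with h | h
  · obtain ⟨m, rfl⟩ := Nat.exists_eq_add_of_le h
    have e : (fun s => zz (-s) ^ k * zz s ^ (k + m)) = fun s => zz s ^ m := by
      funext s
      rw [pow_add, ← mul_assoc, ← mul_pow, fej_zz_mul, one_pow, one_mul]
    rw [e, fej_mean]
    by_cases hm : m = 0
    · rw [if_pos hm, if_pos (by omega)]
    · rw [if_neg hm, if_neg (by omega)]
  · obtain ⟨m, rfl⟩ := Nat.exists_eq_add_of_le h
    have e : (fun s => zz (-s) ^ (l + m) * zz s ^ l) = fun s => (starRingEnd ℂ) (zz s ^ m) := by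
      funext s
      rw [pow_add, mul_right_comm, ← mul_pow, fej_zz_mul, one_pow, one_mul, zz_neg, map_pow]
    rw [e, integral_conj, fej_mean]
    by_cases hm : m = 0
    · rw [if_pos hm, if_pos (by omega), map_one]
    · rw [if_neg hm, if_neg (by omega), map_zero]

private theorem fej_integrable {f : TC → ℂ} (hf : Continuous f) : Integrable f haar :=
  hf.integrable_of_hasCompactSupport (HasCompactSupport.of_compactSpace f)

theorem fej_int (K : ℕ) (t : TC) : ∫ s, fej K (t - s) ∂haar = 1 := by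
  have hK : ((K : ℂ) + 1) ≠ 0 := by exact_mod_cast Nat.succ_ne_zero K
  have hc : ∀ k l : ℕ, Continuous fun s : TC =>
      (1 / ((K : ℂ) + 1)) * (zz t ^ k * zz (-t) ^ l) * (zz (-s) ^ k * zz s ^ l) := fun k l =>
    continuous_const.mul (((zz_cont.comp continuous_neg).pow k).mul (zz_cont.pow l))
  have h1 : ((∫ s, fej K (t - s) ∂haar : ℝ) : ℂ) = 1 := by
    rw [← integral_complex_ofReal]
    calc ∫ s, ((fej K (t - s) : ℝ) : ℂ) ∂haar
        = ∫ s, ∑ k ∈ range (K + 1), ∑ l ∈ range (K + 1),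
          (1 / ((K : ℂ) + 1)) * (zz t ^ k * zz (-t) ^ l) * (zz (-s) ^ k * zz s ^ l) ∂haar :=
          integral_congr_ae (Filter.Eventually.of_forall fun s => fej_eq' K t s)
      _ = ∑ k ∈ range (K + 1), ∑ l ∈ range (K + 1),
          ∫ s, (1 / ((K : ℂ) + 1)) * (zz t ^ k * zz (-t) ^ l) * (zz (-s) ^ k * zz s ^ l) ∂haar := by
          rw [integral_finsetSum _ fun k _ =>
            fej_integrable (continuous_finsetSum _ fun l _ => hc k l)]
          refine sum_congr rfl fun k _ => ?_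
          rw [integral_finsetSum _ fun l _ => fej_integrable (hc k l)]
      _ = ∑ k ∈ range (K + 1), (1 / ((K : ℂ) + 1)) := by
          refine sum_congr rfl fun k hk => ?_
          have e1 : ∀ l ∈ range (K + 1),
              ∫ s, (1 / ((K : ℂ) + 1)) * (zz t ^ k * zz (-t) ^ l) * (zz (-s) ^ k * zz s ^ l) ∂haar =
              if k = l then (1 / ((K : ℂ) + 1)) else 0 := by
            intro l _
            rw [integral_const_mul, fej_mean2]
            split_ifs with h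
            · rw [← h, mul_one, ← mul_pow, mul_comm (zz t), fej_zz_mul, one_pow, mul_one]
            · rw [mul_zero]
          rw [sum_congr rfl e1, sum_ite_eq, if_pos hk]
      _ = 1 := by
          rw [sum_const, card_range, nsmul_eq_mul]
          push_cast
          field_simp
  exact_mod_cast h1

theorem fej_tail (K : ℕ) (u : TC) (hu : zz u ≠ 1) :
    fej K u ≤ 4 / (((K : ℝ) + 1) * ‖1 - zz u‖ ^ 2) := by
  have hn : 0 < ‖1 - zz u‖ := norm_pos_iff.2 (sub_ne_zero.2 (Ne.symm hu))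
  have h1 : ‖∑ k ∈ range (K + 1), zz u ^ k‖ ≤ 2 / ‖1 - zz u‖ := by
    rw [geom_sum_eq hu, norm_div, norm_sub_rev (zz u) 1]
    refine div_le_div_of_nonneg_right ?_ hn.le
    calc ‖zz u ^ (K + 1) - 1‖ ≤ ‖zz u ^ (K + 1)‖ + ‖(1 : ℂ)‖ := norm_sub_le _ _
      _ = 2 := by rw [norm_pow, norm_zz, one_pow, norm_one]; norm_num
  have h2 : ‖∑ k ∈ range (K + 1), zz u ^ k‖ ^ 2 ≤ (2 / ‖1 - zz u‖) ^ 2 :=
    pow_le_pow_left₀ (norm_nonneg _) h1 2
  calc fej K u ≤ (1 / ((K : ℝ) + 1)) * (2 / ‖1 - zz u‖) ^ 2 :=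
        mul_le_mul_of_nonneg_left h2 (by positivity)
    _ = 4 / (((K : ℝ) + 1) * ‖1 - zz u‖ ^ 2) := by
        field_simp
        norm_num

theorem fej_eq (K : ℕ) (t s : TC) :
    (fej K (t - s) : ℂ) = ∑ k ∈ range (K + 1), ∑ l ∈ range (K + 1),
      (1 / ((K : ℂ) + 1)) * (zz t ^ k * zz (-t) ^ l) * (zz (-s) ^ k * zz s ^ l) :=
  fej_eq' K t s

end Pool.Agent.HB
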