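import Pool.Agent.HB.O.IN

/-!
# HB.O.HBan: the Hahn-Banach functional

`CurS n`: the complex vector space of continuous curves with coordinates `< n`.
PROOF.  `P f = ∫ W t (f t)` is sublinear on `CurS n` (`W t (f t)` is continuous in `t`, so integrable).  Let `D ⊆ CurS n` be the real subspace of
curves `t ↦ ev (zz t) F + a • x` with `F : Pol` supported `< n`, `ev 0 F = 0`, `a ∈ ℂ`; define `λ(F + a x) = Re a · IN W x` (if `x = 0` or `IN W x = 0` take
`λ = 0`; if `x ≠ 0`, `a` is determined by the value of the polynomial at `0`: well defined; technically: the linear map `Pol → ℝ`,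
or use `LinearPMap`, or extend from the subspace `{ev F : F}` using the value at 0 composed with a real functional on `ℂ x`).
`λ ≤ P` on `D`: `∫ W t (F t + a x) ≥ IN W (a x) = ‖a‖ IN W x ≥ Re a IN W x` by `bal` with `k = 1`.
Extend to `λ : CurS n → ℝ`, `λ ≤ P` (`exists_extension_of_le_sublinear`).  `Λ f = λ f - i λ(i f)` is complex linear and
`‖Λ f‖ ≤ P f` (rotate: `‖Λ f‖ = Λ(e^{iθ} f) = λ(e^{iθ} f) ≤ P(e^{iθ} f) = P f`).  `Λ(t ↦ zz t^k • y) = 0` for `k ≥ 1`: the curve and `i` times it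
are in `D` with `a = 0`.  `Re Λ(x) = λ(x) = IN W x`.
-/

open Finset MeasureTheory Polynomial

noncomputable section

namespace Pool.Agent.HB

/-- curves with coordinates `< n` -/
def CurS (n : ℕ) : Submodule ℂ (TC → CV) where
  carrier := {F | (∀ t, ∀ i, n ≤ i → F t i = 0) ∧ ∀ i, Continuous fun t => F t i}
  zero_mem' := by
    refine ⟨fun t i _ => rfl, fun i => ?_⟩
    simp only [Pi.zero_apply, Finsupp.coe_zero]
    exact continuous_const
  add_mem' := by
    intro F G hF hG
    refine ⟨fun t i hi => ?_, fun i => ?_⟩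
    · simp [hF.1 t i hi, hG.1 t i hi]
    · have h := (hF.2 i).add (hG.2 i)
      exact h
  smul_mem' := by
    intro a F hF
    refine ⟨fun t i hi => ?_, fun i => ?_⟩
    · simp [hF.1 t i hi]
    · have h := (hF.2 i).const_smul a
      exact h

theorem curS_cur {n : ℕ} (f : CurS n) : IsCur f.1 := ⟨⟨n, f.2.1⟩, f.2.2⟩

theorem curS_int {W : TC → CV → ℝ} (hW : Fam W) {F : TC → CV} (hF : IsCur F) :
    Integrable (fun t => W t (F t)) haar :=
  (hW.cont F hF).integrable_of_hasCompactSupport (HasCompactSupport.of_compactSpace _)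

/-- the sublinear functional -/
def hbP (W : TC → CV → ℝ) {n : ℕ} (f : CurS n) : ℝ := ∫ t, W t (f.1 t) ∂haar

theorem hbP_smul {W : TC → CV → ℝ} (hW : Fam W) {n : ℕ} (a : ℂ) (f : CurS n) :
    hbP W (a • f) = ‖a‖ * hbP W f := by
  unfold hbP
  rw [← integral_const_mul]
  congr 1
  funext t
  exact hW.smul t a (f.1 t)

theorem hbP_add {W : TC → CV → ℝ} (hW : Fam W) {n : ℕ} (f g : CurS n) :
    hbP W (f + g) ≤ hbP W f + hbP W g := by
  unfold hbP
  rw [← integral_add (curS_int hW (curS_cur f)) (curS_int hW (curS_cur g))]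
  apply integral_mono (curS_int hW (curS_cur (f + g)))
    ((curS_int hW (curS_cur f)).add (curS_int hW (curS_cur g)))
  intro t
  exact hW.add t (f.1 t) (g.1 t)

theorem hbP_nonneg {W : TC → CV → ℝ} (hW : Fam W) {n : ℕ} (f : CurS n) : 0 ≤ hbP W f :=
  integral_nonneg fun t => hW.nn t _

/-- the domain -/
def hbD (n : ℕ) (x : CV) : Submodule ℂ (CurS n) where
  carrier := {f | ∃ (F : Pol) (a : ℂ), ev 0 F = a • x ∧ ∀ t, f.1 t = ev (zz t) F}
  zero_mem' := by
    refine ⟨0, 0, ?_, fun t => ?_⟩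
    · ext i
      simp [ev]
    · ext i
      simp [ev]
  add_mem' := by
    rintro f g ⟨F, a, h1, h2⟩ ⟨G, b, h3, h4⟩
    refine ⟨F + G, a + b, ?_, fun t => ?_⟩
    · rw [ev_add, h1, h3, add_smul]
    · rw [ev_add, ← h2, ← h4]
      rfl
  smul_mem' := by
    rintro c f ⟨F, a, h1, h2⟩
    refine ⟨(C c : ℂ[X]) • F, c * a, ?_, fun t => ?_⟩
    · rw [ev_smul, h1, eval_C, mul_smul]
    · rw [ev_smul, eval_C, ← h2]
      rfl

/-- the functional -/
def hbg (n : ℕ) (A : ℝ) (i0 : ℕ) (b : ℂ) : CurS n →ₗ[ℂ] ℂ where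
  toFun f := A * ((∫ t, f.1 t i0 ∂haar) / b)
  map_add' f g := by
    have h1 : Integrable (fun t => f.1 t i0) haar :=
      (f.2.2 i0).integrable_of_hasCompactSupport (HasCompactSupport.of_compactSpace _)
    have h2 : Integrable (fun t => g.1 t i0) haar :=
      (g.2.2 i0).integrable_of_hasCompactSupport (HasCompactSupport.of_compactSpace _)
    have h3 : ∫ t, (f + g).1 t i0 ∂haar = ∫ t, f.1 t i0 ∂haar + ∫ t, g.1 t i0 ∂haar := by
      rw [← integral_add h1 h2]
      rfl
    rw [h3]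
    ring
  map_smul' c f := by
    have h3 : ∫ t, (c • f).1 t i0 ∂haar = c * ∫ t, f.1 t i0 ∂haar := by
      rw [← integral_const_mul]
      rfl
    rw [h3]
    simp only [RingHom.id_apply, smul_eq_mul]
    ring

theorem hb_exists {W : TC → CV → ℝ} (hW : Fam W) (n : ℕ) (x : CV) (hx : ∀ i, n ≤ i → x i = 0) :
    ∃ Λ : CurS n →ₗ[ℂ] ℂ, (∀ f : CurS n, ‖Λ f‖ ≤ ∫ t, W t (f.1 t) ∂haar) ∧
      (∀ (f : CurS n) (k : ℕ) (y : CV), 1 ≤ k → (∀ i, n ≤ i → y i = 0) →
        (∀ t, f.1 t = zz t ^ k • y) → Λ f = 0) ∧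
      ∀ f : CurS n, (∀ t, f.1 t = x) → (Λ f).re = IN W x := by
  by_cases hx0 : x = 0
  · refine ⟨0, fun f => ?_, fun f k y _ _ _ => rfl, fun f _ => ?_⟩
    · rw [LinearMap.zero_apply, norm_zero]
      exact hbP_nonneg hW f
    · have h := IN_smul hW 0 x
      rw [zero_smul, norm_zero, zero_mul] at h
      rw [hx0, h]
      rfl
  obtain ⟨i0, hi0⟩ : ∃ i0, x i0 ≠ 0 := by
    by_contra hcon
    push Not at hcon
    exact hx0 (Finsupp.ext hcon)
  set A := IN W x with hA
  have hA0 : 0 ≤ A := IN_nonneg hW x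
  set G : CurS n →ₗ[ℂ] ℂ := hbg n A i0 (x i0) with hG
  -- the value of the functional on the domain
  have hGval : ∀ (f : CurS n) (F : Pol) (a : ℂ), ev 0 F = a • x →
      (∀ t, f.1 t = ev (zz t) F) → G f = A * a := by
    intro f F a h1 h2
    have h3 : ∫ t, f.1 t i0 ∂haar = a * x i0 := by
      have h4 : ∀ t, f.1 t i0 = (F i0).eval (zz t) := by
        intro t
        rw [h2 t]
        rfl
      have h5 : ∫ t, f.1 t i0 ∂haar = ∫ t, (F i0).eval (zz t) ∂haar := by
        congr 1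
        funext t
        exact h4 t
      rw [h5, mean_poly, ← ev_apply, h1]
      rfl
    have h6 : G f = A * ((∫ t, f.1 t i0 ∂haar) / x i0) := rfl
    rw [h6, h3, mul_div_assoc, div_self hi0, mul_one]
  let gR : CurS n →ₗ[ℝ] ℝ := Complex.reLm.comp (G.restrictScalars ℝ)
  have hgR : ∀ f, gR f = (G f).re := fun f => rfl
  let pm : CurS n →ₗ.[ℝ] ℝ :=
    { domain := (hbD n x).restrictScalars ℝ
      toFun := gR.comp ((hbD n x).restrictScalars ℝ).subtype }
  have hpm : ∀ f : pm.domain, pm f = (G f.1).re := fun f => rfl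
  obtain ⟨g, hg1, hg2⟩ := exists_extension_of_le_sublinear pm (fun f => hbP W f)
    (by
      intro c hc f
      have h1 : c • f = ((c : ℂ)) • f := (Complex.coe_smul c f).symm
      show hbP W (c • f) = c * hbP W f
      rw [h1, hbP_smul hW, Complex.norm_real, Real.norm_eq_abs, abs_of_pos hc])
    (fun f f' => hbP_add hW f f')
    (by
      rintro ⟨f, hf⟩
      obtain ⟨F, a, h1, h2⟩ := hf
      show (G f).re ≤ hbP W f
      rw [hGval f F a h1 h2]
      have h3 := bal hW F 1 le_rfl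
      simp only [pow_one] at h3
      rw [h1, IN_smul hW] at h3
      have h4 : hbP W f = ∫ t, W t (ev (zz t) F) ∂haar := by
        unfold hbP
        congr 1
        funext t
        rw [h2 t]
      rw [h4]
      refine le_trans ?_ h3
      have h5 : ((A : ℂ) * a).re = A * a.re := by
        rw [Complex.re_ofReal_mul]
      rw [h5, mul_comm ‖a‖]
      exact mul_le_mul_of_nonneg_left (Complex.re_le_norm a) hA0)
  set Λ : CurS n →ₗ[ℂ] ℂ := Module.Dual.extendRCLike (𝕜 := ℂ) (F := CurS n) g with hΛ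
  have hval : ∀ (f : CurS n) (F : Pol) (a : ℂ), ev 0 F = a • x →
      (∀ t, f.1 t = ev (zz t) F) → g f = A * a.re := by
    intro f F a h1 h2
    have h3 := hg1 ⟨f, F, a, h1, h2⟩
    rw [h3, hpm, hGval f F a h1 h2, Complex.re_ofReal_mul]
  refine ⟨Λ, ?_, ?_, ?_⟩
  · intro f
    have h1 := Module.Dual.norm_extendRCLike_apply_sq (𝕜 := ℂ) g f
    have h2 := hg2 ((starRingEnd ℂ) (Λ f) • f)
    have h3 : ‖Λ f‖ ^ 2 ≤ ‖Λ f‖ * hbP W f := by
      calc ‖Λ f‖ ^ 2 = g ((starRingEnd ℂ) (Λ f) • f) := h1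
        _ ≤ hbP W ((starRingEnd ℂ) (Λ f) • f) := h2
        _ = ‖Λ f‖ * hbP W f := by
          rw [hbP_smul hW, RCLike.norm_conj]
    by_cases h0 : ‖Λ f‖ = 0
    · rw [h0]
      exact hbP_nonneg hW f
    · have h4 : 0 < ‖Λ f‖ := lt_of_le_of_ne (norm_nonneg _) (Ne.symm h0)
      rw [pow_two] at h3
      exact le_of_mul_le_mul_left h3 h4
  · intro f k y hk hy hf
    have key : ∀ (f' : CurS n) (y' : CV), (∀ t, f'.1 t = zz t ^ k • y') → g f' = 0 := by
      intro f' y' hf'
      set F : Pol := (X ^ k : ℂ[X]) • (y'.mapRange (fun c => C c) (by simp)) with hF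
      have hev : ∀ τ, ev τ F = τ ^ k • y' := by
        intro τ
        rw [hF, ev_smul]
        ext i
        simp [ev]
      have h1 : ev 0 F = (0 : ℂ) • x := by
        rw [hev, zero_pow (by omega), zero_smul, zero_smul]
      have h2 := hval f' F 0 h1 (fun t => by rw [hf' t, hev])
      rw [h2]
      simp
    have h1 := key f y hf
    have h2 := key ((Complex.I) • f) (Complex.I • y) (by
      intro t
      have : (Complex.I • f).1 t = Complex.I • f.1 t := rfl
      rw [this, hf t, smul_comm])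
    have h3 : Λ f = (g f : ℂ) - Complex.I * (g (Complex.I • f) : ℂ) :=
      Module.Dual.extendRCLike_apply (𝕜 := ℂ) g f
    rw [h3, h1, h2]
    simp
  · intro f hf
    have h1 : (Λ f).re = g f := Module.Dual.re_extendRCLike_apply (𝕜 := ℂ) g f
    rw [h1]
    set F : Pol := x.mapRange (fun c => C c) (by simp) with hF
    have hev : ∀ τ, ev τ F = x := by
      intro τ
      ext i
      simp [ev, hF]
    have h2 := hval f F 1 (by rw [hev, one_smul]) (fun t => by rw [hf t, hev])
    rw [h2]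
    simp

end Pool.Agent.HB
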