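import Pool.Agent.HB.O.Circle

/-!
# HB.O.Outer: outer polynomials

PROOF of `outer`.  Let `ε > 0`.  By density of trigonometric polynomials (`span_fourier_closure_eq_top` in `C(AddCircle 1, ℂ)`)
there are `c : ℤ → ℂ` (finite support) with `sup_t |g t - ∑_k c_k zz^k| ≤ ε/8`.  Taking real parts, `p t = Re ∑ c_k zz^k` satisfies
`|g - p| ≤ ε/8`, and since `Re(c zz^{-k}) = Re (conj c zz^k)` on the circle, `p t = Re (q.eval (zz t))` with
`q = C (Re c_0) + ∑_{k≥1} (c_k + conj c_{-k}) X^k`.  `∫ p = Re q(0)` (`mean_poly`), `|∫ p - ∫ g| ≤ ε/8`.  Let `q₀ = q - C (q.eval 0)`: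
`q₀(0) = 0`, `Re q₀(zz t) = p t - ∫ p ≤ g t - ∫ g + ε/4`.  Taylor: `φ = ∑_{k≤K} q₀^k/k!`, `φ(0) = 1`,
`sup_t ‖φ(zz t) - exp(q₀(zz t))‖ ≤ η` for `K` large (uniformly, as `q₀(zz t)` is bounded).  `‖exp(q₀)‖ = exp(Re q₀)`, bounded below by a
positive constant `b`; with `η = b (e^{ε/4} - 1)`: `‖φ‖ ≤ exp(Re q₀) + η ≤ exp(Re q₀) e^{ε/4} ≤ exp(g - ∫ g + ε)`.

PROOF of `outer_mean`.  `κ > 0` small, `g_κ = max g κ ≥ κ > 0`, `∫ g_κ^k ≤ ∫ g^k + κ^k ≤ A^k + κ^k ≤ (A + ε/2)^k` for suitable `κ`.  Jensen (concavity of `log`;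
`ConcaveOn.le_map_integral` or `log x ≤ x/a - 1 + log a` integrated with `a = ∫ g_κ^k`): `k ∫ log g_κ = ∫ log (g_κ^k) ≤ log ∫ g_κ^k ≤ k log (A+ε/2)`.
Apply `outer` to `-log g_κ` with `ε'` such that `e^{ε'} (A+ε/2) ≤ A + ε`:
`‖φ(zz t)‖ ≤ exp(-log g_κ(t) + ∫ log g_κ + ε') ≤ e^{ε'} (A+ε/2)/g_κ(t)`, and `g ≤ g_κ`.
-/

open Finset MeasureTheory Polynomial

namespace Pool.Agent.HB

private theorem outer_zz_pow (t : TC) (k : ℕ) : zz t ^ k = fourier (k : ℤ) t := by
  induction k with
  | zero => simp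
  | succ k ih =>
    rw [pow_succ, ih, Nat.cast_succ, fourier_add, fourier_one]
    rfl

private theorem outer_zz_cont : Continuous zz := by
  have h : zz = fun t => fourier (1 : ℤ) t := by
    funext t
    rw [fourier_one]
    rfl
  rw [h]
  exact (fourier 1).continuous

private theorem outer_span (f : C(TC, ℂ))
    (hf : f ∈ Submodule.span ℂ (Set.range (@fourier (1 : ℝ)))) :
    ∀ a : ℂ, ∃ q : ℂ[X], ∀ t, (a * f t).re = (q.eval (zz t)).re := by
  induction hf using Submodule.span_induction with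
  | mem x hx =>
    obtain ⟨n, rfl⟩ := hx
    intro a
    rcases Int.eq_nat_or_neg n with ⟨k, rfl | rfl⟩
    · refine ⟨C a * X ^ k, fun t => ?_⟩
      rw [eval_mul, eval_C, eval_pow, eval_X, outer_zz_pow]
    · refine ⟨C ((starRingEnd ℂ) a) * X ^ k, fun t => ?_⟩
      rw [eval_mul, eval_C, eval_pow, eval_X, outer_zz_pow, fourier_neg]
      simp [Complex.mul_re]
  | zero =>
    intro a
    exact ⟨0, fun t => by simp⟩
  | add x y _ _ hx hy =>
    intro a
    obtain ⟨p, hp⟩ := hx a
    obtain ⟨q, hq⟩ := hy a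
    refine ⟨p + q, fun t => ?_⟩
    rw [eval_add, Complex.add_re, ← hp, ← hq, ContinuousMap.add_apply, mul_add, Complex.add_re]
  | smul b x _ hx =>
    intro a
    obtain ⟨p, hp⟩ := hx (a * b)
    refine ⟨p, fun t => ?_⟩
    rw [← hp, ContinuousMap.smul_apply, smul_eq_mul, mul_assoc]

private theorem outer_approx (g : TC → ℝ) (hg : Continuous g) {δ : ℝ} (hδ : 0 < δ) :
    ∃ q : ℂ[X], ∀ t, |g t - (q.eval (zz t)).re| ≤ δ := by
  let G : C(TC, ℂ) := ⟨fun t => (g t : ℂ), Complex.continuous_ofReal.comp hg⟩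
  have hG : G ∈ (Submodule.span ℂ (Set.range (@fourier (1 : ℝ)))).topologicalClosure := by
    rw [span_fourier_closure_eq_top]
    trivial
  rw [← SetLike.mem_coe, Submodule.topologicalClosure_coe, Metric.mem_closure_iff] at hG
  obtain ⟨f, hf, hd⟩ := hG δ hδ
  obtain ⟨q, hq⟩ := outer_span f hf 1
  refine ⟨q, fun t => ?_⟩
  have h1 : dist (G t) (f t) ≤ dist G f := ContinuousMap.dist_apply_le_dist t
  have h2 : (q.eval (zz t)).re = (f t).re := by
    rw [← hq t, one_mul]
  rw [h2]
  have h3 : g t - (f t).re = (G t - f t).re := by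
    simp [G]
  rw [h3]
  calc |(G t - f t).re| ≤ ‖G t - f t‖ := Complex.abs_re_le_norm _
    _ = dist (G t) (f t) := (dist_eq_norm _ _).symm
    _ ≤ δ := h1.trans hd.le

theorem outer (g : TC → ℝ) (hg : Continuous g) {ε : ℝ} (hε : 0 < ε) :
    ∃ φ : ℂ[X], φ.eval 0 = 1 ∧
      ∀ t, ‖φ.eval (zz t)‖ ≤ Real.exp (g t - ∫ s, g s ∂haar + ε) := by
  have hδ : 0 < ε / 8 := by positivity
  obtain ⟨q, hq⟩ := outer_approx g hg hδ
  have hqc : Continuous fun t => q.eval (zz t) := q.continuous.comp outer_zz_cont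
  have hqi : Integrable (fun t => q.eval (zz t)) haar :=
    hqc.integrable_of_hasCompactSupport (HasCompactSupport.of_compactSpace _)
  have hgi : Integrable g haar := hg.integrable_of_hasCompactSupport (HasCompactSupport.of_compactSpace _)
  have hre : ∫ t, (q.eval (zz t)).re ∂haar = (q.eval 0).re := by
    rw [← mean_poly q]
    exact integral_re hqi
  have hmean : |∫ t, g t ∂haar - (q.eval 0).re| ≤ ε / 8 := by
    have hqr : Integrable (fun t => (q.eval (zz t)).re) haar := hqi.re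
    rw [← hre, ← integral_sub hgi hqr]
    have := norm_integral_le_of_norm_le_const (μ := haar) (f := fun t => g t - (q.eval (zz t)).re)
      (C := ε / 8) (Filter.Eventually.of_forall fun t => by
        rw [Real.norm_eq_abs]
        exact hq t)
    simpa [Real.norm_eq_abs] using this
  set q₀ : ℂ[X] := q - C (q.eval 0) with hq₀
  have hq₀0 : q₀.eval 0 = 0 := by simp [hq₀]
  have hq₀c : Continuous fun t => q₀.eval (zz t) := q₀.continuous.comp outer_zz_cont
  have hre₀ : ∀ t, (q₀.eval (zz t)).re ≤ g t - ∫ s, g s ∂haar + ε / 4 := by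
    intro t
    have h1 : (q₀.eval (zz t)).re = (q.eval (zz t)).re - (q.eval 0).re := by simp [hq₀]
    rw [h1]
    have h2 := abs_le.1 (hq t)
    have h3 := abs_le.1 hmean
    linarith [h2.1, h2.2, h3.1, h3.2]
  obtain ⟨R, hR⟩ := isCompact_univ.exists_bound_of_continuousOn (f := fun t => q₀.eval (zz t))
    hq₀c.continuousOn
  have hR0 : 0 ≤ R := (norm_nonneg _).trans (hR 0 trivial)
  set η : ℝ := Real.exp (-R) * (Real.exp (ε / 4) - 1) with hη
  have hη0 : 0 < η := by
    have : 1 < Real.exp (ε / 4) := Real.one_lt_exp_iff.2 (by positivity)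
    have := Real.exp_pos (-R)
    have : 0 < Real.exp (ε / 4) - 1 := by linarith
    positivity
  have hten : Filter.Tendsto (fun n : ℕ => R ^ n / (n.factorial : ℝ) * 2) Filter.atTop (nhds 0) := by
    have := (FloorSemiring.tendsto_pow_div_factorial_atTop R).mul_const 2
    simpa using this
  obtain ⟨K, hK1, hK2, hK3⟩ : ∃ K : ℕ, R ^ K / (K.factorial : ℝ) * 2 ≤ η ∧ 2 * R ≤ K ∧ 0 < K := by
    have h1 := (hten.eventually (Iic_mem_nhds hη0))
    have h2 := Filter.eventually_ge_atTop (⌈2 * R⌉₊)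
    have h3 := Filter.eventually_gt_atTop 0
    obtain ⟨K, hK1, hK2, hK3⟩ := (h1.and (h2.and h3)).exists
    exact ⟨K, hK1, (Nat.le_ceil _).trans (by exact_mod_cast hK2), hK3⟩
  refine ⟨∑ k ∈ range K, C ((k.factorial : ℂ)⁻¹) * q₀ ^ k, ?_, fun t => ?_⟩
  · rw [eval_finsetSum, Finset.sum_eq_single 0]
    · simp
    · intro b _ hb
      rw [eval_mul, eval_pow, hq₀0, zero_pow hb, mul_zero]
    · intro h
      exact absurd (Finset.mem_range.2 hK3) h
  · set w := q₀.eval (zz t) with hw
    have hwR : ‖w‖ ≤ R := hR t trivial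
    have hev : (∑ k ∈ range K, C ((k.factorial : ℂ)⁻¹) * q₀ ^ k).eval (zz t) =
        ∑ k ∈ range K, w ^ k / (k.factorial : ℂ) := by
      rw [eval_finsetSum]
      refine Finset.sum_congr rfl fun k _ => ?_
      rw [eval_mul, eval_C, eval_pow, ← hw]
      ring
    rw [hev]
    have hb : ‖w‖ / (K.succ : ℝ) ≤ 1 / 2 := by
      rw [div_le_iff₀ (by positivity)]
      push_cast
      linarith
    have h1 := Complex.exp_bound' hb
    have h2 : ‖w‖ ^ K / (K.factorial : ℝ) * 2 ≤ η := by
      refine le_trans ?_ hK1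
      gcongr
    have h3 : ‖∑ k ∈ range K, w ^ k / (k.factorial : ℂ)‖ ≤ Real.exp w.re + η := by
      have h4 : ‖∑ k ∈ range K, w ^ k / (k.factorial : ℂ)‖ ≤
          ‖Complex.exp w‖ + ‖Complex.exp w - ∑ k ∈ range K, w ^ k / (k.factorial : ℂ)‖ := by
        have := norm_sub_le (Complex.exp w)
          (Complex.exp w - ∑ k ∈ range K, w ^ k / (k.factorial : ℂ))
        simpa using this
      rw [Complex.norm_exp] at h4
      linarith
    have h5 : Real.exp (-R) ≤ Real.exp w.re := by
      apply Real.exp_le_exp.2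
      have := abs_le.1 ((Complex.abs_re_le_norm w).trans hwR)
      linarith [this.1]
    have h6 : η ≤ Real.exp w.re * (Real.exp (ε / 4) - 1) := by
      rw [hη]
      have : 1 ≤ Real.exp (ε / 4) := Real.one_le_exp (by positivity)
      exact mul_le_mul_of_nonneg_right h5 (by linarith)
    calc ‖∑ k ∈ range K, w ^ k / (k.factorial : ℂ)‖ ≤ Real.exp w.re + η := h3
      _ ≤ Real.exp w.re * Real.exp (ε / 4) := by linarith
      _ = Real.exp (w.re + ε / 4) := (Real.exp_add _ _).symm
      _ ≤ Real.exp (g t - ∫ s, g s ∂haar + ε) := by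
        apply Real.exp_le_exp.2
        have := hre₀ t
        linarith

theorem outer_mean (g : TC → ℝ) (hg : Continuous g) (h0 : ∀ t, 0 ≤ g t) (k : ℕ) (hk : 1 ≤ k)
    {A : ℝ} (hA0 : 0 ≤ A) (hA : ∫ t, g t ^ k ∂haar ≤ A ^ k) {ε : ℝ} (hε : 0 < ε) :
    ∃ φ : ℂ[X], φ.eval 0 = 1 ∧ ∀ t, ‖φ.eval (zz t)‖ * g t ≤ A + ε := by
  set κ : ℝ := ε / 2 with hκ
  have hκ0 : 0 < κ := by positivity
  have hB0 : 0 < A + κ := by linarith
  set G : TC → ℝ := fun t => max (g t) κ with hG
  have hGc : Continuous G := hg.max continuous_const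
  have hGκ : ∀ t, κ ≤ G t := fun t => le_max_right _ _
  have hG0 : ∀ t, 0 < G t := fun t => hκ0.trans_le (hGκ t)
  have hlc : Continuous fun t => Real.log (G t) := hGc.log fun t => (hG0 t).ne'
  have hli : Integrable (fun t => Real.log (G t)) haar :=
    hlc.integrable_of_hasCompactSupport (HasCompactSupport.of_compactSpace _)
  have hgki : Integrable (fun t => g t ^ k) haar :=
    (hg.pow k).integrable_of_hasCompactSupport (HasCompactSupport.of_compactSpace _)
  have hkey : ∫ t, Real.log (G t) ∂haar ≤ Real.log (A + κ) := by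
    have ha : 0 < (A + κ) ^ k := by positivity
    have hpt : ∀ t, (k : ℝ) * Real.log (G t) ≤
        (g t ^ k + κ ^ k) / (A + κ) ^ k - 1 + k * Real.log (A + κ) := by
      intro t
      have h1 : (G t) ^ k ≤ g t ^ k + κ ^ k := by
        rcases le_total (g t) κ with h | h
        · have : G t = κ := max_eq_right h
          rw [this]
          have := pow_nonneg (h0 t) k
          linarith
        · have : G t = g t := max_eq_left h
          rw [this]
          have := pow_nonneg hκ0.le k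
          linarith
      have h2 : Real.log ((G t) ^ k / (A + κ) ^ k) ≤ (G t) ^ k / (A + κ) ^ k - 1 :=
        Real.log_le_sub_one_of_pos (div_pos (pow_pos (hG0 t) k) ha)
      rw [Real.log_div (pow_pos (hG0 t) k).ne' ha.ne', Real.log_pow, Real.log_pow] at h2
      have h3 : (G t) ^ k / (A + κ) ^ k ≤ (g t ^ k + κ ^ k) / (A + κ) ^ k := by
        gcongr
      linarith
    have hi1 : Integrable (fun t => (g t ^ k + κ ^ k)) haar := hgki.add (integrable_const _)
    have hi2 : Integrable (fun t => (g t ^ k + κ ^ k) / (A + κ) ^ k) haar := hi1.div_const _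
    have hi3 : Integrable (fun t => (g t ^ k + κ ^ k) / (A + κ) ^ k - 1) haar :=
      hi2.sub (integrable_const _)
    have hint : ∫ t, (k : ℝ) * Real.log (G t) ∂haar ≤
        ∫ t, ((g t ^ k + κ ^ k) / (A + κ) ^ k - 1 + k * Real.log (A + κ)) ∂haar :=
      integral_mono (hli.const_mul _) (hi3.add (integrable_const _)) hpt
    have hr : ∫ t, ((g t ^ k + κ ^ k) / (A + κ) ^ k - 1 + k * Real.log (A + κ)) ∂haar =
        ((∫ t, g t ^ k ∂haar) + κ ^ k) / (A + κ) ^ k - 1 + k * Real.log (A + κ) := by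
      rw [integral_add hi3 (integrable_const _), integral_sub hi2 (integrable_const _),
        integral_div, integral_add hgki (integrable_const _)]
      simp
    rw [hr, integral_const_mul] at hint
    have h4 : ((∫ t, g t ^ k ∂haar) + κ ^ k) / (A + κ) ^ k ≤ 1 := by
      rw [div_le_one ha]
      have := pow_add_pow_le hA0 hκ0.le (n := k) (by omega)
      linarith
    have hk0 : (0 : ℝ) < k := by exact_mod_cast hk
    have h5 : (k : ℝ) * ∫ t, Real.log (G t) ∂haar ≤ k * Real.log (A + κ) := by linarith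
    exact le_of_mul_le_mul_left h5 hk0
  have hBε : A + κ < A + ε := by linarith
  have hε' : 0 < Real.log ((A + ε) / (A + κ)) := by
    apply Real.log_pos
    rw [lt_div_iff₀ hB0]
    linarith
  obtain ⟨φ, hφ0, hφ⟩ := outer (fun t => - Real.log (G t)) hlc.neg hε'
  refine ⟨φ, hφ0, fun t => ?_⟩
  have h1 := hφ t
  have h2 : Real.exp (-Real.log (G t) - ∫ s, -Real.log (G s) ∂haar +
      Real.log ((A + ε) / (A + κ))) ≤ (A + ε) / G t := by
    have h3 : (A + ε) / G t = Real.exp (-Real.log (G t) + Real.log (A + κ) +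
        Real.log ((A + ε) / (A + κ))) := by
      rw [Real.exp_add, Real.exp_add, Real.exp_neg, Real.exp_log (hG0 t), Real.exp_log hB0,
        Real.exp_log (by positivity)]
      field_simp
    rw [h3, integral_neg]
    apply Real.exp_le_exp.2
    linarith
  calc ‖φ.eval (zz t)‖ * g t ≤ ((A + ε) / G t) * G t := by
        apply mul_le_mul (h1.trans h2) (le_max_left _ _) (h0 t)
        have := hG0 t
        positivity
    _ = A + ε := by
        rw [div_mul_cancel₀ _ (hG0 t).ne']

end Pool.Agent.HB
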